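import Pool.Agent.U755.ST.Half

/-! Base change of Stark units from a totally real field to a quadratic extension. -/

set_option autoImplicit false
set_option linter.style.haveILetI false

namespace Pool.Agent.U755.ST
open NumberField Module IntermediateField Pool.Agent.K4H33.SK Pool.Agent.K4H33.SQ
open Pool.Agent.K4H33.SK.Stmt (Sub Ideals nrm Cop prd principal cntAll PrimesOver)

lemma isZeta_sum {X : Type*} [Fintype X] {cF c1 c2 : X → ℕ → ℕ} {cK : ℕ → ℕ}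
    {ZF Z1 Z2 : X → ℂ → ℂ} (hF : ∀ x, IsZeta (cF x) (ZF x)) (h1 : ∀ x, IsZeta (c1 x) (Z1 x))
    (h2 : ∀ x, IsZeta (c2 x) (Z2 x)) (h : ∀ n, n ≠ 0 → (cK n : ℤ) =
      ∑ x, ∑ i ∈ n.divisorsAntidiagonal, (cF x i.1 : ℤ) * ((c1 x i.2 : ℤ) - c2 x i.2)) :
    IsZeta cK (fun s => ∑ x, ZF x s * (Z1 x s - Z2 x s)) := by
  constructor
  · refine DifferentiableOn.fun_sum fun y _ => ?_
    exact DifferentiableOn.mul (hF _).1 ((h1 y).1.sub (h2 y).1)
  · intro s hs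
    have h3 : ∀ y ∈ (Finset.univ : Finset X), LSeriesHasSum (LSeries.convolution
        (fun n : ℕ => (cF y n : ℂ))
        ((fun n => (c1 y n : ℂ)) - fun n => (c2 y n : ℂ))) s
        (ZF y s * (Z1 y s - Z2 y s)) :=
      fun y _ => ((hF y).2 s hs).convolution (((h1 y).2 s hs).sub ((h2 y).2 s hs))
    have h4 := LSeriesHasSum.sum h3
    refine (LSeriesHasSum_congr s _ (fun {n} hn => ?_)).1 h4
    have h5 := congrArg (Int.cast : ℤ → ℂ) (h n hn)
    push_cast at h5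
    rw [h5, Finset.sum_apply]
    refine Finset.sum_congr rfl fun y _ => ?_
    rw [LSeries.convolution_def]
    rfl

lemma deriv_sum {X : Type*} [Fintype X] {ZF Z1 Z2 : X → ℂ → ℂ}
    (hF : ∀ x, DifferentiableOn ℂ (ZF x) {1}ᶜ) (h1 : ∀ x, DifferentiableOn ℂ (Z1 x) {1}ᶜ)
    (h2 : ∀ x, DifferentiableOn ℂ (Z2 x) {1}ᶜ) (h0 : ∀ x, ZF x 0 = 0) :
    deriv (fun s => ∑ x, ZF x s * (Z1 x s - Z2 x s)) 0 =
      ∑ x, deriv (ZF x) 0 * (Z1 x 0 - Z2 x 0) := by
  have hn : ({1}ᶜ : Set ℂ) ∈ nhds (0 : ℂ) := isOpen_compl_singleton.mem_nhds (by simp)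
  have d1 : ∀ y : X, DifferentiableAt ℂ (Z1 y) 0 := fun y => (h1 y).differentiableAt hn
  have d2 : ∀ y : X, DifferentiableAt ℂ (Z2 y) 0 := fun y => (h2 y).differentiableAt hn
  have d3 : ∀ y : X, DifferentiableAt ℂ (ZF y) 0 := fun y => (hF y).differentiableAt hn
  have h5 : HasDerivAt (fun s => ∑ x, ZF x s * (Z1 x s - Z2 x s)) (∑ y : X,
      (deriv (ZF y) 0 * (Z1 y 0 - Z2 y 0) + ZF y 0 * (deriv (Z1 y) 0 - deriv (Z2 y) 0))) 0 := by
    have h6 := HasDerivAt.fun_sum (u := (Finset.univ : Finset X))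
      (A := fun y s => ZF y s * (Z1 y s - Z2 y s)) (x := (0 : ℂ))
      (fun y _ => (d3 y).hasDerivAt.mul ((d1 y).hasDerivAt.sub (d2 y).hasDerivAt))
    exact h6
  rw [h5.deriv]
  refine Finset.sum_congr rfl fun y _ => ?_
  rw [h0, zero_mul, add_zero]

/-- The fields: `F` is a totally real field, `K` a quadratic extension of `F` which is complex under
`ι` and has a real embedding, and `M` is an abelian extension of `F` in which the real place `ι` of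
`F` splits completely, i.e. `ι` is real on `M`. -/
structure Fields (ι : Qbar →+* ℂ) (F K M : Sub) : Prop where
  real_F : ∀ w : Qbar →+* ℂ, ∀ x ∈ F, (w x).im = 0
  le : F ≤ K
  deg : finrank ℚ K = 2 * finrank ℚ F
  complex : ∃ x ∈ K, (ι x).im ≠ 0
  real_K : ∃ w : Qbar →+* ℂ, ∀ x ∈ K, (w x).im = 0
  le_M : F ≤ M
  stable : ∀ σ : GQ, Fixes F σ → ∀ x ∈ M, σ x ∈ M
  abelian : ∀ σ τ : GQ, Fixes F σ → Fixes F τ → ∀ x ∈ M, σ (τ x) = τ (σ x)
  real_M : ∀ x ∈ M, (ι x).im = 0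

/-- The rank one abelian Stark conjecture, in its basic form, for the abelian extension `M` of the
totally real field `F`, the real place of `F` given by `ι`, which splits completely in `M`, and the
set of places of `F` consisting of the infinite ones and the primes dividing `𝔣`: there is a
unit `ε` of `M`, of absolute value one at all places of `M` above the other real places of `F`, with
`log |ι (σ ε)| = - 2 ζ'(0, σ)` for all `σ`. -/
def StarkReal (ι : Qbar →+* ℂ) (F M : Sub) [NumberField F] (𝔣 : Ideals F)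
    (art : Ideals F → GQ) : Prop :=
  ∃ (Z : GQ → ℂ → ℂ) (ε : Qbar), ε ∈ M ∧ ε ≠ 0 ∧
    (∀ σ : GQ, Fixes F σ → IsZeta (Stmt.cnt F M 𝔣 art σ) (Z σ) ∧ Z σ 0 = 0 ∧
      (Real.log ‖ι (σ ε)‖ : ℂ) = -2 * deriv (Z σ) 0) ∧
    IsIntegral ℤ ε ∧ IsIntegral ℤ ε⁻¹ ∧
    ∀ w : Qbar →+* ℂ, (∃ x ∈ F, w x ≠ ι x) → ‖w ε‖ = 1

/-- The finite set `T` of automorphisms fixing `K` represents the Galois group of `K ⊔ M`
over `K`. -/
def Represents (K M : Sub) (T : Finset GQ) : Prop :=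
  (∀ τ ∈ T, Fixes K τ) ∧ ∀ σ : GQ, Fixes K σ → ∃! τ, τ ∈ T ∧ ∀ x ∈ M, σ x = τ x

/-- The ideal of `K` generated by the ideal `𝔣` of the subfield `F`. -/
noncomputable def extend (F K : Sub) (𝔣 : Ideals F) : Ideals K :=
  Ideal.span {y | ∃ x ∈ 𝔣, (((x : 𝓞 F) : F) : Qbar) = ((y : K) : Qbar)}

/-- `H` is unramified over `F` outside `𝔣`, and `art 𝔟` is (a lift to `Qbar` of) the Artin
symbol `(𝔟, H/F)`, for nonzero ideals `𝔟` of `F` prime to `𝔣`: it fixes `F`, it is multiplicative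
in `𝔟`, and it is the Frobenius automorphism modulo every prime `𝔓` above `𝔭`, for `𝔭`
prime. The automorphisms `σ` with `IsFrob ⊤ 𝔓 1 σ` are those in the inertia group of `𝔓`. -/
structure IsSymbol (F H : Sub) [NumberField F] (𝔣 : Ideals F) (art : Ideals F → GQ) : Prop where
  fix : ∀ 𝔟 : Ideals F, 𝔟 ≠ ⊥ → Cop F 𝔟 𝔣 → Fixes F (art 𝔟)
  mul : ∀ 𝔟 𝔠 : Ideals F, 𝔟 ≠ ⊥ → 𝔠 ≠ ⊥ → Cop F 𝔟 𝔣 → Cop F 𝔠 𝔣 →
    ∀ x ∈ H, art (prd F 𝔟 𝔠) x = art 𝔟 (art 𝔠 x)
  frob : ∀ 𝔭 : Ideals F, 𝔭.IsPrime → 𝔭 ≠ ⊥ → Cop F 𝔭 𝔣 →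
    ∀ 𝔓 : Ideal (𝓞 Qbar), Stmt.Above F 𝔭 𝔓 → Stmt.IsFrob H 𝔓 (nrm F 𝔭) (art 𝔭)
  unram : ∀ 𝔭 : Ideals F, 𝔭.IsPrime → 𝔭 ≠ ⊥ → Cop F 𝔭 𝔣 →
    ∀ 𝔓 : Ideal (𝓞 Qbar), Stmt.Above F 𝔭 𝔓 →
      ∀ σ : GQ, Fixes F σ → Stmt.IsFrob ⊤ 𝔓 1 σ → Fixes H σ

/-- The Artin symbols of `F` and of `K` for the extension `K ⊔ M`, for the ideals prime to `𝔣`, where
`𝔣` is a nonzero ideal of `F` divisible by all primes which are ramified in `K ⊔ M`. -/
structure Symbols (F K M : Sub) [NumberField F] [NumberField K] (𝔣 : Ideals F)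
    (artF : Ideals F → GQ) (artK : Ideals K → GQ) : Prop where
  ne_bot : 𝔣 ≠ ⊥
  art_F : IsSymbol F (K ⊔ M) 𝔣 artF
  art_K : IsSymbol K (K ⊔ M) (extend F K 𝔣) artK

/-- The Artin factorization `L_K(s, χ|_K) = L_F(s, χ) L_F(s, χ ψ)` of the `L`-functions of `K`,
where `ψ` is the quadratic character of the quadratic extension `K` of `F`, for the
characters `χ` of the abelian extension `M` of `F` with `K ⊓ M = F`, in terms of the coefficients of
the partial zeta functions: the partial zeta function of `σ` over `K` is the sum over the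
elements `τ` of the Galois group of `K ⊔ M` over `K` of the product of the partial zeta function of
the restriction of `τ` to `M` over `F` and the difference of the partial zeta functions
of `σ τ⁻¹` and `σ τ⁻¹ c` over `F`, where `c` is trivial on `M` and not on `K`. -/
def ArtinFactorization (F K M : Sub) [NumberField F] [NumberField K] (𝔣 : Ideals F)
    (artF : Ideals F → GQ) (artK : Ideals K → GQ) : Prop :=
  ∀ T : Finset GQ, Represents K M T → ∀ c σ : GQ, Fixes M c → ¬ Fixes K c → Fixes K σ →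
    ∀ n : ℕ, n ≠ 0 →
      (Stmt.cnt K (K ⊔ M) (extend F K 𝔣) artK σ n : ℤ) = ∑ τ ∈ T, ∑ i ∈ n.divisorsAntidiagonal,
        (Stmt.cnt F M 𝔣 artF τ i.1 : ℤ) * ((Stmt.cnt F (K ⊔ M) 𝔣 artF (σ * τ⁻¹) i.2 : ℤ) -
          Stmt.cnt F (K ⊔ M) 𝔣 artF (σ * τ⁻¹ * c) i.2)

end Pool.Agent.U755.ST
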