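import Pool.Agent.U755.ST.Main

/-! Stark units over a real quadratic field from elliptic units. -/

set_option autoImplicit false
set_option linter.style.haveILetI false

namespace Pool.Agent.U755.ST
open NumberField Module IntermediateField Pool.Agent.K4H33.SK Pool.Agent.K4H33.SQ
open Pool.Agent.K4H33.SK.Stmt (Sub Ideals nrm Cop prd principal cntAll PrimesOver)

/-- The unit `κ` obtained from an elliptic unit by the abelian root property. -/
lemma exists_kappa' {ι : Qbar →+* ℂ} {k L : Sub} {c c₀ σ₀ : GQ}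
    (hc : ∀ x, ι (c x) = (starRingEnd ℂ) (ι x)) (hrel : σ₀ * c₀ = c * σ₀) (hs_k : Fixes k σ₀)
    (hak : Fixes k (c * c₀)) (hkL : k ≤ L) {W : ℕ} (hW : 0 < W) {C : GQ → ℕ → ℕ}
    {Z : GQ → ℂ → ℂ} {ε : Qbar} (hε : ε ∈ L) (hε0 : ε ≠ 0) (hlim : LimitFormula ι k W C Z ε)
    (hint : ∀ σ : GQ, Fixes k σ → IsIntegral ℤ (σ ε / ε)) (hab : AbelianRoot k W ε)
    (hsym : deriv (Z σ₀) 0 = deriv (Z (σ₀ * (c * c₀)⁻¹)) 0) :
    ∃ κ : Qbar, κ ∈ L ∧ κ ≠ 0 ∧ IsIntegral ℤ κ ∧ IsIntegral ℤ κ⁻¹ ∧ c₀ κ = κ⁻¹ ∧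
      ∀ g : GQ, Fixes k g → (Real.log (‖ι (g κ)‖ ^ 2) : ℂ) =
        -(deriv (Z g) 0 - deriv (Z (g * (c * c₀)⁻¹)) 0) := by
  obtain ⟨lam, hlam⟩ := IsAlgClosed.exists_pow_nat_eq ε hW
  have hlam0 : lam ≠ 0 := by
    rintro rfl
    rw [zero_pow hW.ne'] at hlam
    exact hε0 hlam.symm
  set a : GQ := c * c₀ with ha
  have haik : Fixes k a⁻¹ := hak.inv
  set κ : Qbar := lam / a⁻¹ lam with hκ
  have hal0 : a⁻¹ lam ≠ 0 := by simpa using hlam0
  have hκ0 : κ ≠ 0 := div_ne_zero hlam0 hal0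
  have hκW : κ ^ W = ε / a⁻¹ ε := by rw [hκ, div_pow, ← map_pow, hlam]
  have hroot : ∀ ξ : Qbar, ξ ^ W = 1 → a⁻¹ ξ = ξ := by
    intro ξ hξ
    rw [AlgEquiv.aut_inv, AlgEquiv.symm_apply_eq]
    have h1 : c₀ ξ = ξ⁻¹ := by
      apply σ₀.injective
      rw [← AlgEquiv.mul_apply, hrel, AlgEquiv.mul_apply,
        conj_root hc hW.ne' (by rw [← map_pow, hξ, map_one]), map_inv₀]
    rw [ha, AlgEquiv.mul_apply, h1, conj_root hc hW.ne' (by rw [inv_pow, hξ, inv_one]), inv_inv]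
  -- membership
  have hκL : κ ∈ L := by
    apply mem_of_fixed
    intro σ hσ
    have hσk : Fixes k σ := hσ.mono hkL
    set ξ : Qbar := σ lam / lam with hξ
    have hξW : ξ ^ W = 1 := by
      rw [hξ, div_pow, ← map_pow, hlam, hσ ε hε, div_self hε0]
    have h1 : σ lam = ξ * lam := by rw [hξ, div_mul_cancel₀ _ hlam0]
    have h2 : σ (a⁻¹ lam) = ξ * a⁻¹ lam := by
      rw [hab lam hlam σ a⁻¹ hσk haik, h1, map_mul, hroot ξ hξW]
    have hξ0 : ξ ≠ 0 := by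
      rintro h
      rw [h, zero_pow hW.ne'] at hξW
      exact zero_ne_one hξW
    rw [hκ, map_div₀, h1, h2, mul_div_mul_left _ _ hξ0]
  -- integrality
  have haε0 : a⁻¹ ε ≠ 0 := by simpa using hε0
  have hκi : IsIntegral ℤ κ := by
    refine IsIntegral.of_pow hW ?_
    rw [hκW]
    have h1 : ε / a⁻¹ ε = a⁻¹ (a ε / ε) := by
      rw [map_div₀]
      congr 1
      rw [← AlgEquiv.mul_apply, inv_mul_cancel, AlgEquiv.one_apply]
    rw [h1]
    exact (hint a hak).map ((a⁻¹ : GQ) : Qbar →+* Qbar).toIntAlgHom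
  have hκi' : IsIntegral ℤ κ⁻¹ := by
    refine IsIntegral.of_pow hW ?_
    rw [inv_pow, hκW, inv_div]
    exact hint a⁻¹ haik
  -- the logarithms
  have hlog : ∀ g : GQ, Fixes k g → (Real.log (‖ι (g κ)‖ ^ 2) : ℂ) =
        -(deriv (Z g) 0 - deriv (Z (g * a⁻¹)) 0) := by
    intro g hg
    have h1 := (hlim g hg).2.2
    have h2 := (hlim (g * a⁻¹) (hg.mul haik)).2.2
    have hn1 : ‖ι (g ε)‖ ^ 2 ≠ 0 := by
      apply pow_ne_zero
      rw [norm_ne_zero_iff, Ne, map_eq_zero]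
      simpa using hε0
    have hn2 : ‖ι ((g * a⁻¹) ε)‖ ^ 2 ≠ 0 := by
      apply pow_ne_zero
      rw [norm_ne_zero_iff, Ne, map_eq_zero]
      simpa using hε0
    have h3 : (W : ℝ) * Real.log (‖ι (g κ)‖ ^ 2) =
        Real.log (‖ι (g ε)‖ ^ 2) - Real.log (‖ι ((g * a⁻¹) ε)‖ ^ 2) := by
      rw [← Real.log_pow, ← Real.log_div hn1 hn2, ← pow_mul, mul_comm 2 W, pow_mul, ← norm_pow,
        ← map_pow, ← map_pow, hκW, map_div₀, map_div₀, norm_div, div_pow]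
      rfl
    have h4 : (W : ℂ) * (Real.log (‖ι (g κ)‖ ^ 2) : ℂ) =
        -(W : ℂ) * deriv (Z g) 0 - -(W : ℂ) * deriv (Z (g * a⁻¹)) 0 := by
      rw [← h1, ← h2]
      exact_mod_cast h3
    have hW' : (W : ℂ) ≠ 0 := Nat.cast_ne_zero.2 hW.ne'
    apply mul_left_cancel₀ hW'
    rw [h4]
    ring
  refine ⟨κ, hκL, hκ0, hκi, hκi', ?_, hlog⟩
  -- complex conjugation
  have h1 := hlog σ₀ hs_k
  rw [hsym, sub_self, neg_zero] at h1
  have h2 : Real.log (‖ι (σ₀ κ)‖ ^ 2) = 0 := by exact_mod_cast h1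
  have h3 : 0 < ‖ι (σ₀ κ)‖ ^ 2 := by
    have : ι (σ₀ κ) ≠ 0 := by
      rw [Ne, map_eq_zero]
      simpa using hκ0
    positivity
  have h4 : ‖ι (σ₀ κ)‖ ^ 2 = 1 := by
    rcases Real.log_eq_zero.1 h2 with h | h | h
    · exact absurd h h3.ne'
    · exact h
    · linarith
  have h5 : σ₀ (κ * c₀ κ) = 1 := by
    apply ι.injective
    have h6 : σ₀ (c₀ κ) = c (σ₀ κ) := by
      rw [← AlgEquiv.mul_apply, hrel, AlgEquiv.mul_apply]
    rw [map_mul, map_mul, h6, hc, Complex.mul_conj, Complex.normSq_eq_norm_sq, h4, map_one]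
    norm_num
  have h6 : κ * c₀ κ = 1 := by
    apply σ₀.injective
    rw [h5, map_one]
  exact eq_inv_of_mul_eq_one_right h6

/-- The fields: `F` is a real quadratic field, `k` an imaginary quadratic field, and `L` is
an extension of `F` such that `ι` is real on `L` and the field `L ⊔ k` is normal over `ℚ` and
abelian over `F` and over `k`. -/
structure DFields (ι : Qbar →+* ℂ) (F k L : Sub) : Prop where
  deg_F : finrank ℚ F = 2
  deg_k : finrank ℚ k = 2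
  real_F : ∀ x ∈ F, (ι x).im = 0
  complex_k : ∃ x ∈ k, (ι x).im ≠ 0
  le : F ≤ L
  real_L : ∀ x ∈ L, (ι x).im = 0
  normal : Normal ℚ ↥(L ⊔ k)
  abelian_F : ∀ σ τ : GQ, Fixes F σ → Fixes F τ → ∀ x ∈ L ⊔ k, σ (τ x) = τ (σ x)
  abelian_k : ∀ σ τ : GQ, Fixes k σ → Fixes k τ → ∀ x ∈ L ⊔ k, σ (τ x) = τ (σ x)

lemma DFields.stable {ι : Qbar →+* ℂ} {F k L : Sub} (hD : DFields ι F k L) (σ : GQ)
    (hσ : Fixes F σ) (x : Qbar) (hx : x ∈ L) : σ x ∈ L := by
  apply mem_of_fixed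
  intro τ hτ
  rw [← hD.abelian_F σ τ hσ (hτ.mono hD.le) x ((le_sup_left : L ≤ L ⊔ k) hx), hτ x hx]

/-- The commutator of the automorphisms `τ` and `σ`. -/
noncomputable def comm (τ σ : GQ) : GQ := τ⁻¹ * (σ⁻¹ * τ * σ)

/-- The Artin formalism for the `L`-functions of the characters of `M` over `F` and of `M ⊔ k` over
`k` which induce the same two dimensional representation, in terms of the coefficients of the
partial zeta functions: if `a` is the commutator of `τ`, trivial on `M` and not on `k`, and of `σ`,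
trivial on `k` and not on `F`, then the differences of the partial zeta functions of `z` and `z a`
over `F` and over `k` are equal, for all `z` in the Galois group over `F ⊔ k`, and the partial zeta
functions of `g` and `g a` over `k` are equal for all `g` not in this group. -/
def ArtinInduction (F k M : Sub) [NumberField F] [NumberField k] (𝔣 : Ideals F)
    (artF : Ideals F → GQ) (𝔪 : Ideals k) (artk : Ideals k → GQ) : Prop :=
  ∀ σ τ : GQ, Fixes k σ → ¬ Fixes F σ → Fixes M τ → ¬ Fixes k τ → ∀ n : ℕ, n ≠ 0 →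
    (∀ z : GQ, Fixes F z → Fixes k z →
      (Stmt.cnt F M 𝔣 artF z n : ℤ) - Stmt.cnt F M 𝔣 artF (z * comm τ σ) n =
        Stmt.cnt k (M ⊔ k) 𝔪 artk z n - Stmt.cnt k (M ⊔ k) 𝔪 artk (z * comm τ σ) n) ∧
    ∀ g : GQ, Fixes k g → ¬ Fixes F g →
      Stmt.cnt k (M ⊔ k) 𝔪 artk g n = Stmt.cnt k (M ⊔ k) 𝔪 artk (g * comm τ σ) n

/-- The continuation of the partial zeta functions of the abelian extension `M` of the totally
real field `F`, where `ι` is real on `M`, and the orders of vanishing at `0` given by Hecke's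
functional equation: the partial zeta functions vanish at `0`, and the sum of those of `σ` and
`σ c` vanishes to order at least two, where `c` is a complex conjugation at another real place
of `F`. -/
def Hecke (ι : Qbar →+* ℂ) (F M : Sub) [NumberField F] (𝔣 : Ideals F) (art : Ideals F → GQ) :
    Prop :=
  ∃ Z : GQ → ℂ → ℂ, ∀ σ : GQ, Fixes F σ → IsZeta (Stmt.cnt F M 𝔣 art σ) (Z σ) ∧ Z σ 0 = 0 ∧
    ∀ (w : Qbar →+* ℂ) (c : GQ), (∃ x ∈ F, w x ≠ ι x) →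
      (∀ x, w (c x) = (starRingEnd ℂ) (w x)) → deriv (Z σ) 0 + deriv (Z (σ * c)) 0 = 0

lemma isZeta_add {a b : ℕ → ℕ} {Z Z' : ℂ → ℂ} (h : IsZeta a Z) (h' : IsZeta b Z') :
    IsZeta (fun n => a n + b n) (fun s => Z s + Z' s) := by
  refine ⟨h.1.add h'.1, fun s hs => ?_⟩
  have h1 := (h.2 s hs).add (h'.2 s hs)
  refine (LSeriesHasSum_congr s _ (fun {n} _ => ?_)).1 h1
  rw [Pi.add_apply]
  push_cast
  rfl

lemma isZeta_diff {a : ℕ → ℕ} {Z : ℂ → ℂ} (h : IsZeta a Z) : DifferentiableAt ℂ Z 0 :=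
  h.1.differentiableAt (isOpen_compl_singleton.mem_nhds (by simp))

/-- **Stark units over a real quadratic field from elliptic units.** -/
theorem starkReal_of_imQuad (ι : Qbar →+* ℂ) (F k M : Sub) [NumberField F] [NumberField k]
    (hD : DFields ι F k M) (𝔣 : Ideals F) (artF : Ideals F → GQ) (𝔪 : Ideals k)
    (artk : Ideals k → GQ) (hI : ArtinInduction F k M 𝔣 artF 𝔪 artk) (hH : Hecke ι F M 𝔣 artF)
    (W : ℕ) (hW : 0 < W) (hS : Stmt.StarkImQuad ι k (M ⊔ k) 𝔪 artk W) :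
    StarkReal ι F M 𝔣 artF := by
  classical
  obtain ⟨c, hc⟩ := exists_conj ι
  have hFn := quad_normal hD.deg_F
  have hkn := quad_normal hD.deg_k
  have hcc : c * c = 1 := by
    ext x
    apply ι.injective
    rw [AlgEquiv.mul_apply, hc, hc, Complex.conj_conj, AlgEquiv.one_apply]
  have hcM : Fixes M c := fun x hx => by
    apply ι.injective
    rw [hc]
    exact Complex.conj_eq_iff_im.2 (hD.real_L x hx)
  have hcF : Fixes F c := hcM.mono hD.le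
  have hck : ¬ Fixes k c := by
    intro h
    obtain ⟨x, hx, hx2⟩ := hD.complex_k
    apply hx2
    have h1 := hc x
    rw [h x hx] at h1
    exact Complex.conj_eq_iff_im.1 h1.symm
  obtain ⟨σ₀, hs_k, hs_F⟩ : ∃ σ₀ : GQ, Fixes k σ₀ ∧ ¬ Fixes F σ₀ := by
    by_contra hne
    push Not at hne
    have h1 : F ≤ k := fun x hx => mem_of_fixed k (fun σ hσ => hne σ hσ x hx)
    have h2 : F = k := IntermediateField.eq_of_le_of_finrank_eq h1 (by rw [hD.deg_F, hD.deg_k])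
    obtain ⟨x, hx, hx2⟩ := hD.complex_k
    exact hx2 (hD.real_F x (h2 ▸ hx))
  set c₀ : GQ := σ₀⁻¹ * c * σ₀ with hc₀
  have hc₀c₀ : c₀ * c₀ = 1 := by
    rw [hc₀]
    calc σ₀⁻¹ * c * σ₀ * (σ₀⁻¹ * c * σ₀) = σ₀⁻¹ * (c * c) * σ₀ := by group
      _ = 1 := by rw [hcc]; group
  have hrel : σ₀ * c₀ = c * σ₀ := by rw [hc₀]; group
  have hc₀F : Fixes F c₀ := by
    intro x hx
    apply σ₀.injective
    rw [← AlgEquiv.mul_apply, hrel, AlgEquiv.mul_apply]
    exact hcF _ (normal_mem hFn σ₀ hx)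
  have hc₀k : ¬ Fixes k c₀ := by
    intro h
    apply hck
    have h1 : c = σ₀ * c₀ * σ₀⁻¹ := by rw [hrel]; group
    rw [h1]
    exact (hs_k.mul h).mul hs_k.inv
  have hak : Fixes k (c * c₀) := quad hD.deg_k hck hc₀k
  have haF : Fixes F (c * c₀) := hcF.mul hc₀F
  have hmemN : ∀ (σ : GQ) {x : Qbar}, x ∈ M ⊔ k → σ x ∈ M ⊔ k := fun σ x hx =>
    normal_mem hD.normal σ hx
  have commF := hD.abelian_F
  set a : GQ := c * c₀ with ha
  have ha2 : ∀ x ∈ M ⊔ k, a (a x) = x := by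
    intro x hx
    have h1 : c₀ (c (c₀ x)) = c (c₀ (c₀ x)) := commF c₀ c hc₀F hcF _ (hmemN c₀ hx)
    have h2 : c₀ (c₀ x) = x := by rw [← AlgEquiv.mul_apply, hc₀c₀, AlgEquiv.one_apply]
    have h3 : c (c x) = x := by rw [← AlgEquiv.mul_apply, hcc, AlgEquiv.one_apply]
    have h0 : a (a x) = c (c₀ (c (c₀ x))) := rfl
    rw [h0, h1, h2, h3]
  have hainv : ∀ x ∈ M ⊔ k, a⁻¹ x = a x := by
    intro x hx
    rw [AlgEquiv.aut_inv, AlgEquiv.symm_apply_eq]
    exact (ha2 x hx).symm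
  have hcinv : c⁻¹ = c := inv_eq_of_mul_eq_one_left hcc
  have hcomm : comm c σ₀ = a := by rw [comm, hcinv]
  obtain ⟨Z, ε, hε, hε0, hlim, hint, hab⟩ := hS
  obtain ⟨ZM, hZM⟩ := hH
  have hinvd : ∀ g : GQ, Fixes k g → deriv (Z (g * a⁻¹)) 0 = deriv (Z (g * a)) 0 := by
    intro g hg
    refine (isZeta_deriv (hlim _ (hg.mul hak.inv)).1 (hlim _ (hg.mul hak)).1 fun n _ =>
      cnt_congr k (M ⊔ k) 𝔪 artk (fun x hx => ?_) n).1
    rw [AlgEquiv.mul_apply, AlgEquiv.mul_apply, hainv x hx]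
  have hsym : deriv (Z σ₀) 0 = deriv (Z (σ₀ * (c * c₀)⁻¹)) 0 := by
    rw [← ha, hinvd σ₀ hs_k]
    refine (isZeta_deriv (hlim _ hs_k).1 (hlim _ (hs_k.mul hak)).1 fun n hn => ?_).1
    have h1 := (hI σ₀ c hs_k hs_F hcM hck n hn).2 σ₀ hs_k hs_F
    rw [hcomm] at h1
    exact h1
  obtain ⟨κ, hκN, hκ0, hκi, hκi', hcκ, hlog⟩ :=
    exists_kappa' hc hrel hs_k hak (le_sup_right : k ≤ M ⊔ k) hW hε hε0 hlim hint hab hsym
  -- the derivatives
  have hw₀ : ∀ x, (ι.comp (σ₀ : Qbar →+* Qbar)) (c₀ x) =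
      (starRingEnd ℂ) ((ι.comp (σ₀ : Qbar →+* Qbar)) x) := by
    intro y
    change ι (σ₀ (c₀ y)) = (starRingEnd ℂ) (ι (σ₀ y))
    rw [← hc, ← AlgEquiv.mul_apply, hrel, AlgEquiv.mul_apply]
  have hw₀F : ∃ x ∈ F, (ι.comp (σ₀ : Qbar →+* Qbar)) x ≠ ι x := by
    by_contra hne
    push Not at hne
    exact hs_F fun x hx => ι.injective (hne x hx)
  have hder : ∀ z : GQ, Fixes F z → Fixes k z →
      -2 * deriv (ZM z) 0 = -(deriv (Z z) 0 - deriv (Z (z * (c * c₀)⁻¹)) 0) := by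
    intro z hzF hzk
    have h1 := fun n hn => (hI σ₀ c hs_k hs_F hcM hck n hn).1 z hzF hzk
    rw [hcomm] at h1
    have h2 := (isZeta_deriv (isZeta_add (hZM z hzF).1 (hlim _ (hzk.mul hak)).1)
      (isZeta_add (hlim z hzk).1 (hZM _ (hzF.mul haF)).1) (fun n hn => by
        have h3 := h1 n hn
        have h4 : (cnt F M 𝔣 artF z n : ℤ) - cnt F M 𝔣 artF (z * a) n =
          cnt k (M ⊔ k) 𝔪 artk z n - cnt k (M ⊔ k) 𝔪 artk (z * a) n := h3
        change cnt F M 𝔣 artF z n + cnt k (M ⊔ k) 𝔪 artk (z * a) n =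
          cnt k (M ⊔ k) 𝔪 artk z n + cnt F M 𝔣 artF (z * a) n
        omega)).1
    rw [deriv_fun_add (isZeta_diff (hZM z hzF).1) (isZeta_diff (hlim _ (hzk.mul hak)).1),
      deriv_fun_add (isZeta_diff (hlim z hzk).1) (isZeta_diff (hZM _ (hzF.mul haF)).1)] at h2
    have h3 : deriv (ZM (z * a)) 0 = deriv (ZM (z * c₀)) 0 := by
      refine (isZeta_deriv (hZM _ (hzF.mul haF)).1 (hZM _ (hzF.mul hc₀F)).1 fun n _ =>
        cnt_congr F M 𝔣 artF (fun x hx => ?_) n).1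
      exact congrArg z (hcM _ (hD.stable c₀ hc₀F x hx))
    have h4 := (hZM z hzF).2.2 _ c₀ hw₀F hw₀
    rw [← ha, hinvd z hzk]
    rw [h3] at h2
    linear_combination -h4 - h2
  have hcκN : c κ ∈ M ⊔ k := hmemN c hκN
  have hccκ : c (c κ) = κ := by rw [← AlgEquiv.mul_apply, hcc, AlgEquiv.one_apply]
  have hcκ0 : c κ ≠ 0 := by simpa using hκ0
  have hεM : κ * c κ ∈ M := by
    apply mem_of_fixed
    intro σ hσ
    by_cases h1 : Fixes k σ
    · have h2 : Fixes (M ⊔ k) σ := fixes_sup.2 ⟨hσ, h1⟩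
      rw [map_mul, h2 κ hκN, h2 _ hcκN]
    · have h2 : Fixes (M ⊔ k) (σ * c) := fixes_sup.2 ⟨hσ.mul hcM, quad hD.deg_k h1 hck⟩
      have h3 := h2 κ hκN
      have h4 := h2 _ hcκN
      rw [AlgEquiv.mul_apply] at h3 h4
      rw [hccκ] at h4
      rw [map_mul, h3, h4, mul_comm]
  have hlimz : ∀ z : GQ, Fixes F z → Fixes k z →
      (Real.log ‖ι (z (κ * c κ))‖ : ℂ) = -2 * deriv (ZM z) 0 := by
    intro z hzF hzk
    rw [hder z hzF hzk, ← hlog z hzk, map_mul, map_mul, norm_mul, commF z c hzF hcF κ hκN, hc,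
      RCLike.norm_conj, ← pow_two]
  refine ⟨ZM, κ * c κ, hεM, mul_ne_zero hκ0 hcκ0, fun σ hσ => ⟨(hZM σ hσ).1, (hZM σ hσ).2.1, ?_⟩,
    hκi.mul (hκi.map ((c : GQ) : Qbar →+* Qbar).toIntAlgHom), ?_, ?_⟩
  · by_cases h1 : Fixes k σ
    · exact hlimz σ hσ h1
    · have h2 := hlimz (σ * c) (hσ.mul hcF) (quad hD.deg_k h1 hck)
      rw [AlgEquiv.mul_apply, hcM _ hεM] at h2
      rw [h2]
      congr 1
      refine (isZeta_deriv (hZM _ (hσ.mul hcF)).1 (hZM _ hσ).1 fun n _ =>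
        cnt_congr F M 𝔣 artF (fun x hx => ?_) n).1
      rw [AlgEquiv.mul_apply, hcM x hx]
  · have h1 := hκi'.map ((c : GQ) : Qbar →+* Qbar).toIntAlgHom
    have h2 : ((c : GQ) : Qbar →+* Qbar).toIntAlgHom κ⁻¹ = (c κ)⁻¹ := map_inv₀ c κ
    rw [h2] at h1
    rw [mul_inv]
    exact hκi'.mul h1
  · intro w hw
    obtain ⟨τ, hτ⟩ := exists_lift ι w
    have hτF : ¬ Fixes F τ := by
      intro h
      obtain ⟨x, hx, hx2⟩ := hw
      apply hx2
      rw [hτ, h x hx]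
    have hwc : ∀ x, w ((τ⁻¹ * c * τ) x) = (starRingEnd ℂ) (w x) := by
      intro x
      rw [hτ, hτ, ← hc, AlgEquiv.mul_apply, AlgEquiv.mul_apply, AlgEquiv.aut_inv,
        AlgEquiv.apply_symm_apply]
    have hs_F' : ¬ Fixes F σ₀⁻¹ := fun h => hs_F (by simpa using h.inv)
    have hα : Fixes F (τ * σ₀⁻¹) := quad hD.deg_F hτF hs_F'
    have hagree : ∀ x ∈ M ⊔ k, (τ⁻¹ * c * τ) x = c₀ x := by
      intro x hx
      have h1 := commF c (τ * σ₀⁻¹) hcF hα (σ₀ x) (hmemN σ₀ hx)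
      have h2 : (τ * σ₀⁻¹) (σ₀ x) = τ x := by
        rw [← AlgEquiv.mul_apply, inv_mul_cancel_right]
      rw [h2] at h1
      rw [AlgEquiv.mul_apply, AlgEquiv.mul_apply, h1, ← AlgEquiv.mul_apply,
        ← AlgEquiv.mul_apply, ← AlgEquiv.mul_apply, hc₀]
      congr 1
      group
    refine norm_one_of_inv hwc (mul_ne_zero hκ0 hcκ0) ?_
    rw [hagree _ ((le_sup_left : M ≤ M ⊔ k) hεM), map_mul, commF c₀ c hc₀F hcF κ hκN, hcκ,
      map_inv₀, mul_inv]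

end Pool.Agent.U755.ST
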