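import Pool.Agent.U755.ST.Rel

/-! Products of conjugates with odd exponents: square roots. -/

set_option autoImplicit false
set_option linter.style.haveILetI false

namespace Pool.Agent.U755.ST
open NumberField Module IntermediateField Pool.Agent.K4H33.SK

section

variable {Q : Type} [CommGroup Q] [Fintype Q]

/-- The product of the `κ x` with exponents `t (x⁻¹)`. -/
noncomputable def El (κ : Q → Qbar) (t : Q → ℤ) : Qbar := ∏ x : Q, κ x ^ t x⁻¹

variable {κ : Q → Qbar}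

lemma El_ne (hκ : ∀ x, κ x ≠ 0) (t : Q → ℤ) : El κ t ≠ 0 :=
  Finset.prod_ne_zero_iff.2 fun _ _ => zpow_ne_zero _ (hκ _)

lemma El_add (hκ : ∀ x, κ x ≠ 0) (t t' : Q → ℤ) : El κ (t + t') = El κ t * El κ t' := by
  simp only [El, Pi.add_apply, zpow_add₀ (hκ _), Finset.prod_mul_distrib]

lemma El_neg (t : Q → ℤ) : El κ (-t) = (El κ t)⁻¹ := by
  simp only [El, Pi.neg_apply, zpow_neg, Finset.prod_inv_distrib]

lemma El_pow (n : ℕ) (t : Q → ℤ) : El κ t ^ n = El κ (fun x => n * t x) := by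
  simp only [El, ← Finset.prod_pow]
  refine Finset.prod_congr rfl fun b _ => ?_
  rw [← zpow_natCast, ← zpow_mul, mul_comm]

lemma El_integral (h : ∀ x, IsIntegral ℤ (κ x)) (h' : ∀ x, IsIntegral ℤ (κ x)⁻¹) (t : Q → ℤ) :
    IsIntegral ℤ (El κ t) :=
  IsIntegral.prod _ fun _ _ => isIntegral_zpow (h _) (h' _) _

lemma El_one (t : Q → ℤ) : El (fun _ : Q => (1 : Qbar)) t = 1 := by
  simp only [El, one_zpow, Finset.prod_const_one]

lemma log_El (w : Qbar →+* ℂ) (hκ : ∀ x, κ x ≠ 0) (t : Q → ℤ) :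
    Real.log (‖w (El κ t)‖ ^ 2) = ∑ x : Q, (t x⁻¹ : ℝ) * Real.log (‖w (κ x)‖ ^ 2) := by
  rw [El, map_prod, norm_prod, ← Finset.prod_pow, Real.log_prod]
  · refine Finset.sum_congr rfl fun b _ => ?_
    rw [map_zpow₀, norm_zpow, ← Real.log_zpow]
    congr 1
    rw [← zpow_natCast, ← zpow_natCast, ← zpow_mul, ← zpow_mul, mul_comm]
  · intro b _
    have : w (κ b) ≠ 0 := by
      rw [Ne, map_eq_zero]
      exact hκ _
    rw [map_zpow₀, norm_zpow]
    have h2 : ‖w (κ b)‖ ≠ 0 := norm_ne_zero_iff.2 this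
    positivity

lemma exists_half (c : Q) (hc : c * c = 1) (h1 : c ≠ 1) : ∃ h : Q → Bool, ∀ x, h (c * x) = !h x := by
  classical
  obtain ⟨n, ⟨e⟩⟩ := Finite.exists_equiv_fin Q
  refine ⟨fun x => decide (e x < e (c * x)), fun x => ?_⟩
  have h2 : c * (c * x) = x := by rw [← mul_assoc, hc, one_mul]
  have h3 : e x ≠ e (c * x) := fun h => h1 (by
    have h4 := e.injective h
    exact (mul_eq_right.1 h4.symm))
  change decide (e (c * x) < e (c * (c * x))) = !decide (e x < e (c * x))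
  rw [h2]
  rcases lt_or_gt_of_ne h3 with h | h
  · simp [h, h.le]
  · have h5 : ¬ e x < e (c * x) := not_lt.2 h.le
    simp [h5, show e (c * x) < e x from h]

/-- Products over halves of `Q`. -/
lemma prod_half {c : Q} (hc : c * c = 1) (h1 : c ≠ 1) {h h' : Q → Bool}
    (hh : ∀ x, h (c * x) = !h x) (hh' : ∀ x, h' (c * x) = !h' x) {G : Q → Qbar}
    (hG0 : ∀ x, G x ≠ 0) (hG : ∀ x, G (c * x) = G x) :
    ∏ x, (if h x then G x else 1) = ∏ x, (if h' x then G x else 1) := by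
  have hne : ∀ x, (if h' x then G x else 1) ≠ 0 := fun x => by
    split_ifs
    · exact hG0 x
    · exact one_ne_zero
  rw [← div_eq_one_iff_eq (Finset.prod_ne_zero_iff.2 fun x _ => hne x), ← Finset.prod_div_distrib]
  refine Finset.prod_involution (fun x _ => c * x) (fun x _ => ?_) (fun x _ _ h2 => ?_)
    (fun x _ => Finset.mem_univ _) (fun x _ => by rw [← mul_assoc, hc, one_mul])
  · rw [hh, hh', hG]
    have h3 := hG0 x
    cases h x <;> cases h' x <;> simp [h3]
  · exact h1 (mul_eq_right.1 h2)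

lemma sum_half {c : Q} {h : Q → Bool} (hh : ∀ x, h (c * x) = !h x) {Φ : Q → ℝ}
    (hΦ : ∀ x, Φ (c * x) = Φ x) : ∑ x, (if h x then 2 * Φ x else 0) = ∑ x, Φ x := by
  have h1 : ∑ x, (if h x then Φ x else 0) = ∑ x, (if h x then 0 else Φ x) := by
    rw [← Equiv.sum_comp (Equiv.mulLeft c)]
    refine Finset.sum_congr rfl fun x _ => ?_
    rw [Equiv.coe_mulLeft, hh, hΦ]
    cases h x <;> simp
  have h2 : ∑ x, (if h x then 2 * Φ x else 0) =
      ∑ x, (if h x then Φ x else 0) + ∑ x, (if h x then Φ x else 0) := by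
    rw [← Finset.sum_add_distrib]
    refine Finset.sum_congr rfl fun x _ => ?_
    split_ifs <;> ring
  rw [h2]
  nth_rw 2 [h1]
  rw [← Finset.sum_add_distrib]
  refine Finset.sum_congr rfl fun x _ => ?_
  split_ifs <;> ring

variable {K M : IntermediateField ℚ Qbar} {cls : GQ → Q}

omit [Fintype Q] in
lemma ClassMap.one (hcl : ClassMap K M Q cls) : cls 1 = 1 := by
  have h1 := hcl.mul 1 1 (Fixes.one K) (Fixes.one K)
  rw [mul_one] at h1
  exact (mul_eq_left.1 h1.symm)

omit [Fintype Q] in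
lemma ClassMap.inv (hcl : ClassMap K M Q cls) {σ : GQ} (hσ : Fixes K σ) : cls σ⁻¹ = (cls σ)⁻¹ := by
  have h1 := hcl.mul σ⁻¹ σ hσ.inv hσ
  rw [inv_mul_cancel, hcl.one] at h1
  exact (eq_inv_of_mul_eq_one_left h1.symm)

/-- The square root of the products with odd exponents. -/
theorem exists_root (hcl : ClassMap K M Q cls) {g : Q → GQ} (hg1 : ∀ x, Fixes K (g x))
    (hg2 : ∀ x, cls (g x) = x) {ε : Qbar} (hε : ε ∈ M) (hε0 : ε ≠ 0) (hi : IsIntegral ℤ ε)
    (hi' : IsIntegral ℤ ε⁻¹) {c₀ : GQ} (hc₀ : Fixes K c₀) (hcc : c₀ * c₀ = 1) (hcε : c₀ ε = ε⁻¹)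
    (ι : Qbar →+* ℂ) : ∃ κ : Q → Qbar, (∀ x, κ x ≠ 0) ∧ (∀ x, IsIntegral ℤ (κ x)) ∧
      (∀ x, IsIntegral ℤ (κ x)⁻¹) ∧
      (∀ σ, Fixes K σ → ∀ t : Q → ℤ, (∀ x, t (cls c₀ * x) = -t x) →
        σ (El κ t) = El κ (fun x => t (cls σ * x))) ∧
      ∀ t : Q → ℤ, (∀ x, t (cls c₀ * x) = -t x) →
        Real.log (‖ι (El κ t)‖ ^ 2) = ∑ x : Q, (t x⁻¹ : ℝ) * Real.log ‖ι (g x ε)‖ := by
  classical
  by_cases h1 : cls c₀ = 1
  · refine ⟨fun _ => 1, fun _ => one_ne_zero, fun _ => isIntegral_one,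
      fun _ => by rw [inv_one]; exact isIntegral_one, fun σ _ t _ => ?_, fun t ht => ?_⟩
    · rw [El_one, El_one, map_one]
    · have h2 : ∀ x, t x = 0 := fun x => by
        have h3 := ht x
        rw [h1, one_mul] at h3
        omega
      rw [El_one, map_one, norm_one, one_pow, Real.log_one]
      exact (Finset.sum_eq_zero fun x _ => by rw [h2]; simp).symm
  · have hc2 : cls c₀ * cls c₀ = 1 := by rw [← hcl.mul _ _ hc₀ hc₀, hcc, hcl.one]
    have hcinv : (cls c₀)⁻¹ = cls c₀ := inv_eq_of_mul_eq_one_left hc2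
    obtain ⟨h, hh⟩ := exists_half (cls c₀) hc2 h1
    have hact : ∀ σ, Fixes K σ → ∀ x, σ (g x ε) = g (cls σ * x) ε := by
      intro σ hσ x
      have h2 : cls (σ * g x) = cls (g (cls σ * x)) := by
        rw [hcl.mul _ _ hσ (hg1 x), hg2, hg2]
      exact (hcl.eq _ _ (hσ.mul (hg1 x)) (hg1 _)).1 h2 ε hε
    have hce : ∀ x, g (cls c₀ * x) ε = (g x ε)⁻¹ := by
      intro x
      rw [← hact c₀ hc₀]
      have h2 : cls (c₀ * g x) = cls (g x * c₀) := by
        rw [hcl.mul _ _ hc₀ (hg1 x), hcl.mul _ _ (hg1 x) hc₀, mul_comm]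
      have h3 := (hcl.eq _ _ (hc₀.mul (hg1 x)) ((hg1 x).mul hc₀)).1 h2 ε hε
      rw [AlgEquiv.mul_apply, AlgEquiv.mul_apply, hcε, map_inv₀] at h3
      exact h3
    have he0 : ∀ x, g x ε ≠ 0 := fun x => by simpa using hε0
    have hκ0 : ∀ x, (if h x then g x ε else 1) ≠ 0 := fun x => by
      split_ifs
      · exact he0 x
      · exact one_ne_zero
    refine ⟨fun x => if h x then g x ε else 1, hκ0, fun x => ?_, fun x => ?_,
      fun σ hσ t ht => ?_, fun t ht => ?_⟩
    · change IsIntegral ℤ (if h x then g x ε else 1)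
      split_ifs
      · exact hi.map ((g x : GQ) : Qbar →+* Qbar).toIntAlgHom
      · exact isIntegral_one
    · change IsIntegral ℤ (if h x then g x ε else 1)⁻¹
      split_ifs
      · have h2 := hi'.map ((g x : GQ) : Qbar →+* Qbar).toIntAlgHom
        have h3 : ((g x : GQ) : Qbar →+* Qbar).toIntAlgHom ε⁻¹ = (g x ε)⁻¹ := map_inv₀ (g x) ε
        rwa [h3] at h2
      · rw [inv_one]; exact isIntegral_one
    · have hG : ∀ x, (fun y => g y ε ^ t (cls σ * y⁻¹)) (cls c₀ * x) =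
          (fun y => g y ε ^ t (cls σ * y⁻¹)) x := by
        intro x
        change g (cls c₀ * x) ε ^ t (cls σ * (cls c₀ * x)⁻¹) = g x ε ^ t (cls σ * x⁻¹)
        rw [hce, mul_inv, hcinv, mul_left_comm, ht, inv_zpow, zpow_neg, inv_inv]
      have h2 := prod_half hc2 h1 (h := fun y => h ((cls σ)⁻¹ * y)) (h' := h)
        (fun x => by rw [mul_left_comm, hh]) hh
        (G := fun y => g y ε ^ t (cls σ * y⁻¹)) (fun x => zpow_ne_zero _ (he0 x)) hG
      have h3 : El (fun x => if h x then g x ε else 1) (fun x => t (cls σ * x)) =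
          ∏ x, (if h x then (fun y => g y ε ^ t (cls σ * y⁻¹)) x else 1) := by
        refine Finset.prod_congr rfl fun x _ => ?_
        change (if h x then g x ε else 1) ^ t (cls σ * x⁻¹) =
          if h x then g x ε ^ t (cls σ * x⁻¹) else 1
        split_ifs
        · rfl
        · rw [one_zpow]
      rw [h3, ← h2, El, map_prod, ← Equiv.prod_comp (Equiv.mulLeft (cls σ))
        (fun x => if h ((cls σ)⁻¹ * x) then g x ε ^ t (cls σ * x⁻¹) else 1)]
      refine Finset.prod_congr rfl fun x _ => ?_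
      rw [Equiv.coe_mulLeft, inv_mul_cancel_left, map_zpow₀]
      change σ (if h x then g x ε else 1) ^ t x⁻¹ =
        if h x then g (cls σ * x) ε ^ t (cls σ * (cls σ * x)⁻¹) else 1
      split_ifs
      · rw [hact σ hσ, mul_inv, mul_inv_cancel_left]
      · rw [map_one, one_zpow]
    · rw [log_El ι hκ0]
      have h2 := sum_half hh (Φ := fun x => (t x⁻¹ : ℝ) * Real.log ‖ι (g x ε)‖) (fun x => by
        rw [hce, mul_inv, hcinv, ht, map_inv₀, norm_inv, Real.log_inv]
        push_cast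
        ring)
      rw [← h2]
      refine Finset.sum_congr rfl fun x _ => ?_
      split_ifs
      · rw [Real.log_pow]
        push_cast
        ring
      · rw [map_one, norm_one, one_pow, Real.log_one, mul_zero]

end

end Pool.Agent.U755.ST
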