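import Pool.Agent.U755.ST.Base

/-! Base change of Stark units from a totally real field to a quadratic extension. -/

set_option autoImplicit false
set_option linter.style.haveILetI false

namespace Pool.Agent.U755.ST
open NumberField Module IntermediateField Pool.Agent.K4H33.SK Pool.Agent.K4H33.SQ
open Pool.Agent.K4H33.SK.Stmt (Sub Ideals nrm Cop prd principal cntAll PrimesOver)

lemma inv_of_norm_one {w : Qbar →+* ℂ} {c : GQ} (hc : ∀ x, w (c x) = (starRingEnd ℂ) (w x))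
    {x : Qbar} (hx : ‖w x‖ = 1) : c x = x⁻¹ := by
  apply w.injective
  rw [hc, map_inv₀]
  have h1 : w x ≠ 0 := fun h => by rw [h, norm_zero] at hx; exact zero_ne_one hx
  have h2 : w x * (starRingEnd ℂ) (w x) = 1 := by
    rw [Complex.mul_conj, Complex.normSq_eq_norm_sq, hx]
    norm_num
  exact (inv_eq_of_mul_eq_one_right h2).symm

lemma norm_one_of_inv {w : Qbar →+* ℂ} {c : GQ} (hc : ∀ x, w (c x) = (starRingEnd ℂ) (w x))
    {x : Qbar} (h0 : x ≠ 0) (hx : c x = x⁻¹) : ‖w x‖ = 1 := by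
  have h5 : w x ≠ 0 := by rwa [Ne, map_eq_zero]
  have h6 := hc x
  rw [hx, map_inv₀] at h6
  have h7 : w x * (starRingEnd ℂ) (w x) = 1 := by rw [← h6, mul_inv_cancel₀ h5]
  rw [Complex.mul_conj, Complex.normSq_eq_norm_sq] at h7
  have h8 : ‖w x‖ ^ 2 = 1 := by exact_mod_cast h7
  exact (pow_eq_one_iff_of_nonneg (norm_nonneg _) two_ne_zero).1 h8

/-- **Base change of Stark units.** -/
theorem stark_base_change (ι : Qbar →+* ℂ) (F K M : Sub) [NumberField F] [NumberField K]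
    [NumberField M] (hF : Fields ι F K M) (𝔣 : Ideals F) (artF : Ideals F → GQ)
    (artK : Ideals K → GQ) (hA : ArtinFactorization F K M 𝔣 artF artK)
    (hDR : DeligneRibet F (K ⊔ M) 𝔣 artF) (hS : StarkReal ι F M 𝔣 artF) (W : ℕ)
    (hW : IsTorsionOrder (K ⊔ M) W) : StarkATR ι K (K ⊔ M) (extend F K 𝔣) artK W := by
  classical
  obtain ⟨c, hc⟩ := exists_conj ι
  obtain ⟨w₀, hw₀⟩ := hF.real_K
  obtain ⟨σ₁, hσ₁⟩ := exists_lift ι w₀
  obtain ⟨ZF, ε, hεM, hε0, hlim, hi, hi', hunit⟩ := hS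
  obtain ⟨ZL, θ, hDR⟩ := hDR
  have hKF : ∀ {τ : GQ}, Fixes K τ → Fixes F τ := fun h => h.mono hF.le
  have hcc : c * c = 1 := by
    ext x
    apply ι.injective
    rw [AlgEquiv.mul_apply, hc, hc, Complex.conj_conj, AlgEquiv.one_apply]
  have hcF : Fixes F c := fun x hx => by
    apply ι.injective
    rw [hc]
    exact Complex.conj_eq_iff_im.2 (hF.real_F ι x hx)
  have hcM : Fixes M c := fun x hx => by
    apply ι.injective
    rw [hc]
    exact Complex.conj_eq_iff_im.2 (hF.real_M x hx)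
  have hcK : ¬ Fixes K c := by
    intro h
    obtain ⟨x, hx, hx2⟩ := hF.complex
    apply hx2
    have h1 := hc x
    rw [h x hx] at h1
    exact Complex.conj_eq_iff_im.1 h1.symm
  set c₀ : GQ := σ₁⁻¹ * c * σ₁ with hc₀
  have hc₀c₀ : c₀ * c₀ = 1 := by
    rw [hc₀]
    calc σ₁⁻¹ * c * σ₁ * (σ₁⁻¹ * c * σ₁) = σ₁⁻¹ * (c * c) * σ₁ := by group
      _ = 1 := by rw [hcc]; group
  have hw₀c : ∀ x, w₀ (c₀ x) = (starRingEnd ℂ) (w₀ x) := by
    intro x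
    rw [hσ₁, hσ₁, ← hc, hc₀, AlgEquiv.mul_apply, AlgEquiv.mul_apply, AlgEquiv.aut_inv,
      AlgEquiv.apply_symm_apply]
  have hc₀K : Fixes K c₀ := by
    intro x hx
    apply w₀.injective
    rw [hw₀c]
    exact Complex.conj_eq_iff_im.2 (hw₀ x hx)
  have hw₀F : ∃ x ∈ F, w₀ x ≠ ι x := by
    by_contra hne
    push Not at hne
    have h1 : Fixes F σ₁ := fun x hx => by
      apply ι.injective
      rw [← hσ₁]
      exact hne x hx
    apply hcK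
    have h2 := conjRel hF.le hF.deg h1.inv hc₀K
    have h3 : σ₁⁻¹⁻¹ * c₀ * σ₁⁻¹ = c := by rw [hc₀]; group
    rwa [h3] at h2
  have hcε : c₀ ε = ε⁻¹ := inv_of_norm_one hw₀c (hunit w₀ hw₀F)
  -- the Galois group
  obtain ⟨Q, iQ, iQ2, cls, hcl⟩ := exists_classMap K M
    (fun σ hσ x hx => hF.stable σ (hKF hσ) x hx)
    (fun σ τ hσ hτ x hx => hF.abelian σ τ (hKF hσ) (hKF hτ) x hx)
  choose g hg1 hg2 using hcl.surj
  have hgF : ∀ x, Fixes F (g x) := fun x => hKF (hg1 x)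
  have agreeL : ∀ {σ τ : GQ}, Fixes K σ → Fixes K τ → cls σ = cls τ →
      ∀ x ∈ K ⊔ M, σ x = τ x := by
    intro σ τ hσ hτ h
    refine agree_sup (fun x hx => ?_) ((hcl.eq σ τ hσ hτ).1 h)
    rw [hσ x hx, hτ x hx]
  have hwd : ∀ σ τ : GQ, Fixes F σ → Fixes F τ → (∀ x ∈ K ⊔ M, σ x = τ x) → θ σ = θ τ := by
    intro σ τ hσ hτ h
    have h1 := (isZeta_deriv (hDR σ hσ).1.1 (hDR τ hτ).1.1
      (fun n _ => cnt_congr F (K ⊔ M) 𝔣 artF h n)).2
    rw [(hDR σ hσ).1.2, (hDR τ hτ).1.2] at h1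
    exact_mod_cast h1
  set θQ : Q → ℚ := fun x => θ (g x) with hθQ
  have hθmul : ∀ σ, Fixes K σ → ∀ x, θQ (cls σ * x) = θ (σ * g x) := by
    intro σ hσ x
    refine hwd _ _ (hgF _) ((hKF hσ).mul (hgF x)) (agreeL (hg1 _) (hσ.mul (hg1 x)) ?_)
    rw [hg2, hcl.mul _ _ hσ (hg1 x), hg2]
  have hθodd : ∀ c' : GQ, IsConjAt F c' → Fixes K c' → ∀ x, θQ (cls c' * x) = -θQ x := by
    intro c' h1 h2 x
    rw [hθmul c' h2 x]
    exact (hDR _ (hgF x)).2.1 c' h1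
  have hc₀F : IsConjAt F c₀ := ⟨w₀, fun x hx => hw₀ x (hF.le hx), hw₀c⟩
  have hcFc : IsConjAt F c := ⟨ι, fun x hx => hF.real_F ι x hx, hc⟩
  -- the exponents
  have hmu : ∀ ξ ∈ K ⊔ M, (∃ m : ℕ, 0 < m ∧ ξ ^ m = 1) → ξ ^ W = 1 := fun ξ hξ hm =>
    (hW.2 ξ).1 ⟨hξ, hm⟩
  have hWθ : ∀ x, ∃ t : ℤ, (W : ℚ) * θQ x = t := by
    intro x
    obtain ⟨t, ht⟩ := (hDR _ (hgF x)).2.2 1 (1 + W) (Fixes.one F) (by
      intro ξ hξ hm
      rw [AlgEquiv.one_apply, pow_add, pow_one, hmu ξ hξ hm, mul_one])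
    rw [one_mul] at ht
    refine ⟨-t, ?_⟩
    push_cast at ht ⊢
    change (W : ℚ) * θ (g x) = -t
    linarith
  choose T hT using hWθ
  have hTodd' : ∀ c' : GQ, IsConjAt F c' → Fixes K c' → ∀ x, T (cls c' * x) = -T x := by
    intro c' h1 h2 x
    have h3 : (T (cls c' * x) : ℚ) = -(T x : ℚ) := by
      rw [← hT, ← hT, hθodd c' h1 h2]; ring
    exact_mod_cast h3
  have hTodd := hTodd' c₀ hc₀F hc₀K
  obtain ⟨κ, hκ0, hκi, hκi', hact, hlogκ⟩ :=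
    exists_root hcl hg1 hg2 hεM hε0 hi hi' hc₀K hc₀c₀ hcε ι
  have hTg : ∀ σ : GQ, ∀ x, T (cls σ * (cls c₀ * x)) = -T (cls σ * x) := by
    intro σ x
    rw [mul_left_comm, hTodd]
  -- the zeta functions
  have hsg : ∀ {σ : GQ}, Fixes K σ → ∀ x, Fixes F (σ * (g x)⁻¹) := fun hσ x =>
    (hKF hσ).mul (hgF x).inv
  have hsgc : ∀ {σ : GQ}, Fixes K σ → ∀ x, Fixes F (σ * (g x)⁻¹ * c) := fun hσ x =>
    (hsg hσ x).mul hcF
  have hθ1 : ∀ {σ : GQ}, Fixes K σ → ∀ x, θ (σ * (g x)⁻¹) = θQ (cls σ * x⁻¹) := by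
    intro σ hσ x
    refine hwd _ _ (hsg hσ x) (hgF _) (agreeL (hσ.mul (hg1 x).inv) (hg1 _) ?_)
    rw [hg2, hcl.mul _ _ hσ (hg1 x).inv, hcl.inv (hg1 x), hg2]
  have hθ2 : ∀ {σ : GQ}, Fixes K σ → ∀ x, θ (σ * (g x)⁻¹ * c) = -θQ (cls σ * x⁻¹) := by
    intro σ hσ x
    rw [← hθ1 hσ x, ← (hDR _ (hsg hσ x)).2.1 c hcFc]
    refine hwd _ _ (hsgc hσ x) (hcF.mul (hsg hσ x)) (agree_sup (fun y hy => ?_) (fun y hy => ?_))
    · rw [AlgEquiv.mul_apply, AlgEquiv.mul_apply c, (hσ.mul (hg1 x).inv) y hy,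
        (hσ.mul (hg1 x).inv) _ (memRel hF.le hF.deg hcF hy)]
    · rw [AlgEquiv.mul_apply, AlgEquiv.mul_apply c, hcM y hy,
        hcM _ (hF.stable _ (hsg hσ x) y hy)]
  have hginj : Function.Injective g := fun x y h => by rw [← hg2 x, ← hg2 y, h]
  have hrep : Represents K M (Finset.univ.image g) := by
    constructor
    · intro τ hτ
      obtain ⟨x, -, rfl⟩ := Finset.mem_image.1 hτ
      exact hg1 x
    · intro σ hσ
      refine ⟨g (cls σ), ⟨Finset.mem_image_of_mem _ (Finset.mem_univ _), ?_⟩, ?_⟩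
      · exact (hcl.eq _ _ hσ (hg1 _)).1 (hg2 _).symm
      · rintro τ ⟨hτ, h⟩
        obtain ⟨x, -, rfl⟩ := Finset.mem_image.1 hτ
        rw [(hcl.eq _ _ hσ (hg1 _)).2 h, hg2]
  refine ⟨fun σ s => ∑ x, ZF (g x) s * (ZL (σ * (g x)⁻¹) s - ZL (σ * (g x)⁻¹ * c) s), El κ T,
    ?_, El_ne hκ0 T, ?_, El_integral hκi hκi' T, ?_, ?_, ?_⟩
  · -- membership in `K ⊔ M`
    apply mem_of_fixed
    intro σ hσ
    have h1 : cls σ = 1 := by
      rw [← hcl.one, hcl.eq _ _ (fixes_sup.1 hσ).1 (Fixes.one K)]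
      exact (fixes_sup.1 hσ).2
    rw [hact σ (fixes_sup.1 hσ).1 T hTodd, h1]
    simp only [one_mul]
  · -- the limit formula
    intro σ hσ
    have z1 : ∀ x, ZF (g x) 0 = 0 := fun x => (hlim _ (hgF x)).2.1
    refine ⟨?_, ?_, ?_⟩
    · refine isZeta_sum (cF := fun x => cnt F M 𝔣 artF (g x))
        (c1 := fun x => cnt F (K ⊔ M) 𝔣 artF (σ * (g x)⁻¹))
        (c2 := fun x => cnt F (K ⊔ M) 𝔣 artF (σ * (g x)⁻¹ * c))
        (fun x => (hlim _ (hgF x)).1) (fun x => (hDR _ (hsg hσ x)).1.1)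
        (fun x => (hDR _ (hsgc hσ x)).1.1) (fun n hn => ?_)
      have h1 := hA _ hrep c σ hcM hcK hσ n hn
      rw [Finset.sum_image (fun x _ y _ h => hginj h)] at h1
      exact h1
    · change ∑ x, ZF (g x) 0 * (ZL (σ * (g x)⁻¹) 0 - ZL (σ * (g x)⁻¹ * c) 0) = 0
      exact Finset.sum_eq_zero fun x _ => by rw [z1, zero_mul]
    · have h1 : deriv (fun s => ∑ x, ZF (g x) s *
          (ZL (σ * (g x)⁻¹) s - ZL (σ * (g x)⁻¹ * c) s)) 0 =
          ∑ x, deriv (ZF (g x)) 0 * (ZL (σ * (g x)⁻¹) 0 - ZL (σ * (g x)⁻¹ * c) 0) :=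
        deriv_sum (ZF := fun x => ZF (g x)) (Z1 := fun x => ZL (σ * (g x)⁻¹))
          (Z2 := fun x => ZL (σ * (g x)⁻¹ * c)) (fun x => (hlim _ (hgF x)).1.1)
          (fun x => (hDR _ (hsg hσ x)).1.1.1) (fun x => (hDR _ (hsgc hσ x)).1.1.1) z1
      change (Real.log (‖ι (σ (El κ T))‖ ^ 2) : ℂ) = -(W : ℂ) * deriv (fun s => ∑ x, ZF (g x) s *
          (ZL (σ * (g x)⁻¹) s - ZL (σ * (g x)⁻¹ * c) s)) 0
      rw [h1, hact σ hσ T hTodd, hlogκ _ (hTg σ)]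
      push_cast
      rw [Finset.mul_sum]
      refine Finset.sum_congr rfl fun x _ => ?_
      rw [(hlim _ (hgF x)).2.2, (hDR _ (hsg hσ x)).1.2, (hDR _ (hsgc hσ x)).1.2, hθ1 hσ, hθ2 hσ]
      have h8 : ((T (cls σ * x⁻¹) : ℤ) : ℂ) = (W : ℂ) * (θQ (cls σ * x⁻¹) : ℂ) := by
        have h7 := hT (cls σ * x⁻¹)
        have h9 : (((T (cls σ * x⁻¹) : ℤ) : ℚ) : ℂ) = ((W : ℚ) * θQ (cls σ * x⁻¹) : ℚ) := by
          rw [h7]
        push_cast at h9
        exact h9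
      rw [h8]
      push_cast
      ring
  · -- integrality of the inverse
    rw [← El_neg]
    exact El_integral hκi hκi' _
  · -- the real places
    intro w hw
    obtain ⟨τ, hτ⟩ := exists_lift ι w
    have hwc : ∀ x, w ((τ⁻¹ * c * τ) x) = (starRingEnd ℂ) (w x) := by
      intro x
      rw [hτ, hτ, ← hc, AlgEquiv.mul_apply, AlgEquiv.mul_apply, AlgEquiv.aut_inv,
        AlgEquiv.apply_symm_apply]
    have h1 : Fixes K (τ⁻¹ * c * τ) := by
      intro x hx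
      apply w.injective
      rw [hwc]
      exact Complex.conj_eq_iff_im.2 (hw x hx)
    refine norm_one_of_inv hwc (El_ne hκ0 T) ?_
    rw [hact _ h1 T hTodd, ← El_neg]
    congr 1
    ext x
    exact hTodd' _ ⟨w, fun x hx => hF.real_F w x hx, hwc⟩ h1 x
  · -- the abelian root property
    intro lam hlam σ τ hσ hτ
    have hlam0 : lam ≠ 0 := by
      rintro rfl
      rw [zero_pow hW.1.ne'] at hlam
      exact El_ne hκ0 T hlam.symm
    have hn : ∀ σ : GQ, Fixes K σ → ∃ (n : ℕ) (u : Q → ℤ), (∀ ξ : Qbar, ξ ^ W = 1 → σ ξ = ξ ^ n) ∧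
        (∀ x, (u x : ℚ) = θQ (cls σ * x) - n * θQ x) := by
      intro σ hσ
      obtain ⟨n, -, hn⟩ := exists_pow hW.1 σ
      have h1 : ∀ x, ∃ u : ℤ, (u : ℚ) = θQ (cls σ * x) - n * θQ x := by
        intro x
        obtain ⟨t, ht⟩ := (hDR _ (hgF x)).2.2 σ n (hKF hσ) (fun ξ hξ hm => hn ξ (hmu ξ hξ hm))
        exact ⟨t, by rw [hθmul σ hσ x, ht]⟩
      choose u hu using h1
      exact ⟨n, u, hn, hu⟩
    obtain ⟨n, u, hn1, hu⟩ := hn σ hσ
    obtain ⟨m, v, hm1, hv⟩ := hn τ hτ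
    have hlcomm : ∀ x y z : Q, x * (y * z) = y * (x * z) := fun x y z => mul_left_comm x y z
    have hodd : ∀ (σ : GQ) (n : ℕ) (u : Q → ℤ),
        (∀ x, (u x : ℚ) = θQ (cls σ * x) - n * θQ x) → ∀ x, u (cls c₀ * x) = -u x := by
      intro σ n u hu x
      have h1 : (u (cls c₀ * x) : ℚ) = -(u x : ℚ) := by
        rw [hu, hu, hlcomm, hθodd c₀ hc₀F hc₀K, hθodd c₀ hc₀F hc₀K]
        ring
      exact_mod_cast h1
    have hpw : ∀ (σ : GQ), Fixes K σ → ∀ (n : ℕ) (u : Q → ℤ),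
        (∀ x, (u x : ℚ) = θQ (cls σ * x) - n * θQ x) →
        (σ lam) ^ W = (lam ^ n * El κ u) ^ W := by
      intro σ hσ n u hu
      rw [← map_pow, hlam, hact σ hσ T hTodd, mul_pow, ← pow_mul, mul_comm n W, pow_mul, hlam,
        El_pow, El_pow, ← El_add hκ0]
      congr 1
      ext x
      have h1 : (T (cls σ * x) : ℚ) = n * T x + W * u x := by
        rw [← hT, ← hT, hu]
        ring
      rw [Pi.add_apply]
      exact_mod_cast h1
    refine comm_of_cocycle hlam0 (El_ne hκ0 u) (El_ne hκ0 v) hn1 hm1 (hpw σ hσ n u hu)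
      (hpw τ hτ m v hv) ?_
    rw [hact τ hτ u (hodd σ n u hu), hact σ hσ v (hodd τ m v hv), El_pow, El_pow,
      ← El_add hκ0, ← El_add hκ0]
    congr 1
    ext x
    rw [Pi.add_apply, Pi.add_apply]
    have h1 : (n : ℚ) * v x + u (cls τ * x) = m * u x + v (cls σ * x) := by
      rw [hu, hu, hv, hv, hlcomm (cls σ) (cls τ) x]
      ring
    exact_mod_cast h1

end Pool.Agent.U755.ST
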