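import Pool.Agent.U755.ST.Quart
import Pool.Agent.U131.SR.ZF
import Pool.Agent.U131.SR.UN
import Pool.Agent.U131.SR.GR
import Pool.Agent.U131.SR.A1
import Pool.Agent.U131.SR.EV
import Pool.Agent.U131.SR.LD
import Pool.Agent.U131.SR.E1
import Pool.Agent.U131.SR.FR
import Pool.Agent.U131.SR.MU

/-! Stark units over all almost totally real quartic fields, from Stark's theorem for imaginary
quadratic fields and the theorem of Deligne and Ribet. -/

set_option autoImplicit false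
set_option linter.style.haveILetI false

namespace Pool.Agent.U755.ST
open NumberField Module IntermediateField Pool.Agent.K4H33.SK Pool.Agent.K4H33.SQ
open Pool.Agent.K4H33.SK.Stmt (Sub Ideals nrm Cop prd principal cntAll PrimesOver)
open Pool.Agent.U131.SR (Unr Cyc)

/-- The fields: `F` is a real quadratic field, `k` an imaginary quadratic field, and `N` is
a field containing `F` and `k`, which is normal and not abelian over `ℚ`, abelian over `F` and
abelian over `k`; all primes ramified in `N` divide `f`, and the maximal abelian subfield of `N` is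
contained in the `f`-th cyclotomic field. -/
structure NFields (F k N : Sub) (f : ℕ) : Prop where
  deg_F : finrank ℚ F = 2
  deg_k : finrank ℚ k = 2
  real_F : ∀ w : Qbar →+* ℂ, ∀ x ∈ F, (w x).im = 0
  complex_k : ∀ w : Qbar →+* ℂ, ∃ x ∈ k, (w x).im ≠ 0
  normal : Normal ℚ N
  F_le : F ≤ N
  k_le : k ≤ N
  abelian_F : ∀ σ τ : GQ, Fixes F σ → Fixes F τ → ∀ x ∈ N, σ (τ x) = τ (σ x)
  abelian_k : ∀ σ τ : GQ, Fixes k σ → Fixes k τ → ∀ x ∈ N, σ (τ x) = τ (σ x)
  nonabelian : ∃ σ τ : GQ, ∃ x ∈ N, σ (τ x) ≠ τ (σ x)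
  two_le : 2 ≤ f
  unramified : Unr N f
  cyclotomic : ∀ x ∈ N, (∀ σ τ : GQ, σ (τ x) = τ (σ x)) → x ∈ Cyc f

lemma isArtin_mono {F T T' : Sub} [NumberField F] {𝔣 : Ideals F} {art : Ideals F → GQ}
    (h : IsArtin F T 𝔣 art) (hT : T' ≤ T) : IsArtin F T' 𝔣 art :=
  ⟨h.fix, fun 𝔟 𝔠 h1 h2 x hx => h.mul 𝔟 𝔠 h1 h2 x (hT hx),
    fun 𝔭 h1 h2 𝔓 h3 h4 x y hx => h.frob 𝔭 h1 h2 𝔓 h3 h4 x y (hT hx)⟩

lemma exists_prim (f : ℕ) (hf : f ≠ 0) : ∃ ζ : Qbar, IsPrimitiveRoot ζ f := by
  haveI : NeZero f := ⟨hf⟩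
  haveI : NeZero ((f : ℕ) : Qbar) := ⟨Nat.cast_ne_zero.2 hf⟩
  exact HasEnoughRootsOfUnity.exists_primitiveRoot Qbar f

lemma cyc_eq {f : ℕ} [NeZero f] {ζ : Qbar} (hζ : IsPrimitiveRoot ζ f) : Cyc f = ℚ⟮ζ⟯ := by
  apply le_antisymm
  · unfold Cyc
    rw [IntermediateField.adjoin_le_iff]
    intro ξ hξ
    obtain ⟨k, -, hk⟩ := hζ.eq_pow_of_pow_eq_one hξ
    rw [← hk]
    exact pow_mem (mem_adjoin_simple_self ℚ ζ) k
  · rw [adjoin_simple_le_iff]
    exact IntermediateField.subset_adjoin ℚ _ hζ.pow_eq_one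

/-- The basic form of the Stark conjecture for the real subfields of `N`. -/
theorem starkReal_of_normal (ι : Qbar →+* ℂ) (F k M N : Sub) [NumberField F] [NumberField k]
    [NumberField M] [NumberField N] (f : ℕ) (hN : NFields F k N f) (hFM : F ≤ M) (hMN : M ≤ N)
    (hreal : ∀ x ∈ M, (ι x).im = 0) (artF : Ideals F → GQ) (artk : Ideals k → GQ)
    (hartF : IsArtin F (N ⊔ Cyc f) (principal F f) artF)
    (hartk : IsArtin k (N ⊔ Cyc f) (principal k f) artk) (W : ℕ) (hW : IsTorsionOrder N W)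
    (hS : Stmt.StarkImQuad ι k N (principal k f) artk W) :
    StarkReal ι F M (principal F f) artF := by
  have hf : f ≠ 0 := by have := hN.two_le; omega
  haveI : NeZero f := ⟨hf⟩
  obtain ⟨ζ, hζ⟩ := exists_prim f hf
  obtain ⟨c, hc⟩ := exists_conj ι
  -- the field `L`
  let L : Sub := N ⊓ fixedField (Subgroup.zpowers c)
  have hLc : ∀ x, x ∈ L ↔ x ∈ N ∧ c x = x := by
    intro x
    rw [IntermediateField.mem_inf, mem_fixedField_iff]
    refine and_congr_right fun _ => ?_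
    constructor
    · intro h
      exact h c (Subgroup.mem_zpowers c)
    · intro h σ hσ
      obtain ⟨n, rfl⟩ := Subgroup.mem_zpowers_iff.1 hσ
      have h2 : c ∈ MulAction.stabilizer GQ x := h
      exact zpow_mem h2 n
  have hL : ∀ x, x ∈ L ↔ x ∈ N ∧ (ι x).im = 0 := by
    intro x
    rw [hLc]
    refine and_congr_right fun _ => ?_
    rw [← ι.injective.eq_iff, hc]
    exact Complex.conj_eq_iff_im
  have hLN : L ≤ N := inf_le_left
  have hML : M ≤ L := fun x hx => (hL x).2 ⟨hMN hx, hreal x hx⟩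
  haveI : FiniteDimensional ℚ L :=
    FiniteDimensional.of_injective (IntermediateField.inclusion hLN).toLinearMap
      (IntermediateField.inclusion hLN).injective
  haveI : NumberField L := { }
  have hFld : Pool.Agent.U131.SR.Fld ι F k N L f ζ :=
    { deg_F := hN.deg_F
      deg_M := hN.deg_k
      real_F := hN.real_F ι
      imag_M := hN.complex_k ι
      normal := hN.normal
      F_le := hN.F_le
      M_le := hN.k_le
      ab_F := hN.abelian_F
      ab_M := hN.abelian_k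
      nonab := hN.nonabelian
      mem_H := hL
      unr := hN.unramified
      two_le := hN.two_le
      prim := hζ
      cyc := fun x hx h => by rw [← cyc_eq hζ]; exact hN.cyclotomic x hx h }
  obtain ⟨c, z, hG⟩ := Pool.Agent.U131.SR.t_GR ι F k N L f ζ hFld
  set T : Sub := N ⊔ Cyc f with hT
  have hNT : N ≤ T := le_sup_left
  have hζT : ζ ∈ T := by
    have h1 : Cyc f ≤ T := le_sup_right
    apply h1
    rw [cyc_eq hζ]
    exact mem_adjoin_simple_self ℚ ζ
  obtain ⟨Z, ε, hε, hε0, hlim, hint, hab⟩ := hS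
  obtain ⟨lam, hlam⟩ := IsAlgClosed.exists_pow_nat_eq ε hW.1
  have hStk : Pool.Agent.U131.SR.Stk ι k N W (cnt k N (principal k f) artk) Z ε lam :=
    { W_pos := hW.1
      mem := hε
      ne := hε0
      C_congr := fun σ τ h => by
        funext n
        exact cnt_congr k N (principal k f) artk h n
      lim := hlim
      int := hint
      ab := hab
      root := hlam }
  have hZ : ∀ σ : GQ, Fixes k σ → IsZeta (cnt k N (principal k f) artk σ) (Z σ) ∧ Z σ 0 = 0 :=
    fun σ hσ => ⟨(hlim σ hσ).1, (hlim σ hσ).2.1⟩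
  obtain ⟨-, hu1, hu2, hu3, hu4, hu5, -, hu7⟩ :=
    Pool.Agent.U131.SR.t_UN ι F k N L f ζ c z W (cnt k N (principal k f) artk) Z ε lam hFld hG hStk
  have hrep : ∀ σ : GQ, Fixes F σ → ∃ g : GQ, Fixes F g ∧ Fixes k g ∧ ∀ x ∈ L, g x = σ x := by
    intro σ hσ
    by_cases h : Fixes k σ
    · exact ⟨σ, hσ, h, fun _ _ => rfl⟩
    · refine ⟨σ * c, hσ.mul hG.c_F, quad hFld.deg_M h hG.c_M, fun x hx => ?_⟩
      rw [AlgEquiv.mul_apply, hG.c_H x hx]
  have hE1 := Pool.Agent.U131.SR.t_E1 Pool.Agent.U131.SR.t_FR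
  have hA1 := Pool.Agent.U131.SR.t_A1 Pool.Agent.U131.SR.t_FR Pool.Agent.U131.SR.t_MU
  have hEV := Pool.Agent.U131.SR.t_EV (Pool.Agent.U131.SR.t_LD hE1)
  have hE : ∀ σ : GQ, ∃ E : ℂ → ℂ, Fixes F σ → IsZeta (cnt F L (principal F f) artF σ) E ∧
      E 0 = 0 ∧ (Real.log ‖ι (σ (Pool.Agent.U131.SR.sU c z lam))‖ : ℂ) = -2 * deriv E 0 := by
    intro σ
    by_cases hσ : Fixes F σ
    · obtain ⟨g, hg1, hg2, hg3⟩ := hrep σ hσ
      obtain ⟨E, h1, h2, h3⟩ := Pool.Agent.U131.SR.t_ZF hA1 hEV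
        ι F k N L f ζ c z T artF artk Z inferInstance hFld hG hNT hζT hartF hartk hZ g hg1 hg2
      refine ⟨E, fun _ => ⟨?_, h2, ?_⟩⟩
      · have h4 : cnt F L (principal F f) artF σ = cnt F L (principal F f) artF g := by
          funext n
          exact cnt_congr F L (principal F f) artF (fun x hx => (hg3 x hx).symm) n
        rw [h4]
        exact h1
      · rw [← hg3 _ hu1, hu7 g hg1 hg2, ← h3]
        ring
    · exact ⟨0, fun h => absurd h hσ⟩
  choose E hE using hE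
  have hSR : StarkReal ι F L (principal F f) artF :=
    ⟨E, Pool.Agent.U131.SR.sU c z lam, hu1, hu2, fun σ hσ => hE σ hσ, hu3, hu4, hu5⟩
  have hab' : ∀ σ τ : GQ, Fixes F σ → Fixes F τ → ∀ x ∈ L, σ (τ x) = τ (σ x) :=
    fun σ τ hσ hτ x hx => hN.abelian_F σ τ hσ hτ x (hLN hx)
  refine starkReal_sub ι F M L hFM hML (fun σ hσ x hx => ?_) hab' _ artF hSR
  apply mem_of_fixed
  intro τ hτ
  rw [← hab' σ τ hσ (hτ.mono (hFM.trans hML)) x hx, hτ x hx]

/-- The Artin symbols for the ideals prime to the integer `f`: those of `F` and of `K` for the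
field `K ⊔ N ⊔ ℚ(ζ)`, and those of `k` for `N ⊔ ℚ(ζ)`, where `ζ` is a primitive `f`-th root of unity;
the first extension is unramified outside `f`. -/
structure NSymbols (F K k N : Sub) [NumberField F] [NumberField K] [NumberField k] (f : ℕ)
    (artF : Ideals F → GQ) (artK : Ideals K → GQ) (artk : Ideals k → GQ) : Prop where
  art_F : IsSymbol F (K ⊔ N ⊔ Cyc f) (principal F f) artF
  art_K : IsSymbol K (K ⊔ N ⊔ Cyc f) (principal K f) artK
  art_k : IsSymbol k (N ⊔ Cyc f) (principal k f) artk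

/-- **Stark units over almost totally real quartic fields.** -/
theorem stark_quartic_normal (ι : Qbar →+* ℂ) (F K k M N : Sub) [NumberField F] [NumberField K]
    [NumberField k] [NumberField M] [NumberField N] (f : ℕ) (hF : Fields ι F K M)
    (hN : NFields F k N f) (hMN : M ≤ N) (artF : Ideals F → GQ) (artK : Ideals K → GQ)
    (artk : Ideals k → GQ) (hart : NSymbols F K k N f artF artK artk)
    (hA : ArtinFactorization F K M (principal F f) artF artK)
    (hDR : DeligneRibet F (K ⊔ M) (principal F f) artF) (W' : ℕ) (hW' : IsTorsionOrder N W')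
    (hS : Stmt.StarkImQuad ι k N (principal k f) artk W') (W : ℕ)
    (hW : IsTorsionOrder (K ⊔ M) W) (𝔣 : Ideals K) (h𝔣 : PrimesOver K f 𝔣) :
    StarkATR ι K (K ⊔ M) 𝔣 artK W := by
  have hT : N ⊔ Cyc f ≤ K ⊔ N ⊔ Cyc f := sup_le_sup_right le_sup_right _
  have h0 := starkReal_of_normal ι F k M N f hN hF.le_M hMN hF.real_M artF artk
    (isArtin_mono (hart.art_F.up hN.two_le) hT) (hart.art_k.up hN.two_le) W' hW' hS
  have h1 := stark_base_change ι F K M hF _ artF artK hA hDR h0 W hW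
  rw [extend_principal hF.le] at h1
  have hMT : K ⊔ M ≤ K ⊔ N ⊔ Cyc f := (sup_le_sup_left hMN K).trans le_sup_left
  have h2 := starkCubic_mul (hart.art_K.up hN.two_le) hMT (le_sup_left : K ≤ K ⊔ M) hW.1 h1 𝔣 h𝔣.1
  refine starkCubic_modulus (fun 𝔟 => ?_) h2
  rw [IsCoprime.mul_right_iff]
  refine ⟨fun h => h.2, fun h => ⟨?_, h⟩⟩
  rw [Ideal.isCoprime_iff_sup_eq]
  by_contra hne
  obtain ⟨P, hP, hle⟩ := Ideal.exists_le_maximal _ hne
  have hf' : (f : 𝓞 K) ∈ P := hle ((le_sup_right : _ ≤ 𝔟 ⊔ Ideal.span {(f : 𝓞 K)})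
    (Ideal.mem_span_singleton_self _))
  apply hP.ne_top
  rw [Ideal.eq_top_iff_one]
  obtain ⟨i, hi, j, hj, hij⟩ := Ideal.isCoprime_iff_exists.1 h
  rw [← hij]
  exact P.add_mem (hle ((le_sup_left : 𝔟 ≤ 𝔟 ⊔ _) hi)) (h𝔣.2 P hP.isPrime hf' hj)

end Pool.Agent.U755.ST
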