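import Pool.Agent.U755.ST.Sub

/-! Stark units over all almost totally real quartic fields containing a real quadratic field. -/

set_option autoImplicit false
set_option linter.style.haveILetI false

namespace Pool.Agent.U755.ST
open NumberField Module IntermediateField Pool.Agent.K4H33.SK Pool.Agent.K4H33.SQ
open Pool.Agent.K4H33.SK.Stmt (Sub Ideals nrm Cop prd principal cntAll PrimesOver)

lemma extend_principal {F K : Sub} (hle : F ≤ K) (f : ℕ) :
    extend F K (principal F f) = principal K f := by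
  apply le_antisymm
  · refine Ideal.span_le.2 ?_
    rintro y ⟨x, hx, hxy⟩
    obtain ⟨t, ht⟩ := Ideal.mem_span_singleton'.1 hx
    have hi : IsIntegral ℤ (⟨((t : F) : Qbar), hle (t : F).2⟩ : K) := by
      have h1 : IsIntegral ℤ ((t : F) : Qbar) :=
        (RingOfIntegers.isIntegral_coe t).map (F.val.toRingHom.toIntAlgHom)
      exact (isIntegral_algHom_iff (K.val.toRingHom.toIntAlgHom) K.val.injective).1 h1
    refine Ideal.mem_span_singleton'.2 ⟨⟨_, hi⟩, ?_⟩
    apply RingOfIntegers.ext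
    apply Subtype.ext
    rw [← hxy, ← ht]
    push_cast
    rfl
  · refine Ideal.span_le.2 ?_
    rintro y hy
    rw [Set.mem_singleton_iff.1 hy]
    exact Ideal.subset_span ⟨(f : 𝓞 F), Ideal.mem_span_singleton_self _, by push_cast; rfl⟩

lemma IsSymbol.up {F H : Sub} [NumberField F] {f : ℕ} (hf : 2 ≤ f) {art : Ideals F → GQ}
    (h : IsSymbol F H (principal F f) art) : IsArtin F H (principal F f) art := by
  have h0 : ∀ 𝔟 : Ideals F, IsCoprime 𝔟 (principal F f) → 𝔟 ≠ ⊥ := by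
    rintro 𝔟 h1 rfl
    rw [coprime_norm, Ideal.absNorm_bot, Nat.coprime_zero_left] at h1
    omega
  exact ⟨fun 𝔟 h1 => h.fix 𝔟 (h0 𝔟 h1) h1,
    fun 𝔟 𝔠 h1 h2 => h.mul 𝔟 𝔠 (h0 𝔟 h1) (h0 𝔠 h2) h1 h2,
    fun 𝔭 h1 h2 𝔓 h3 h4 => h.frob 𝔭 h1 (h0 𝔭 h2) h2 𝔓 ⟨h3, h4⟩⟩

/-- The Artin symbols for the ideals prime to the integer `f`: those of `F` and of `K`
for `K ⊔ L`, and those of `k` for `L ⊔ k`; these extensions are unramified outside `f`. -/
structure QSymbols (F K k L : Sub) [NumberField F] [NumberField K] [NumberField k] (f : ℕ)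
    (artF : Ideals F → GQ) (artK : Ideals K → GQ) (artk : Ideals k → GQ) : Prop where
  two_le : 2 ≤ f
  art_F : IsSymbol F (K ⊔ L) (principal F f) artF
  art_K : IsSymbol K (K ⊔ L) (principal K f) artK
  art_k : IsSymbol k (L ⊔ k) (principal k f) artk

/-- **Stark units over almost totally real quartic fields.** -/
theorem stark_quartic_dihedral (ι : Qbar →+* ℂ) (F K k M L : Sub) [NumberField F] [NumberField K]
    [NumberField k] [NumberField M] [NumberField L] (hF : Fields ι F K M) (hL : DFields ι F k L)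
    (hML : M ≤ L) (f : ℕ) (artF : Ideals F → GQ) (artK : Ideals K → GQ) (artk : Ideals k → GQ)
    (hart : QSymbols F K k L f artF artK artk)
    (hA : ArtinFactorization F K M (principal F f) artF artK)
    (hI : ArtinInduction F k L (principal F f) artF (principal k f) artk)
    (hH : Hecke ι F L (principal F f) artF)
    (hDR : DeligneRibet F (K ⊔ M) (principal F f) artF) (W' : ℕ)
    (hW' : IsTorsionOrder (L ⊔ k) W')
    (hS : Stmt.StarkImQuad ι k (L ⊔ k) (principal k f) artk W') (W : ℕ)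
    (hW : IsTorsionOrder (K ⊔ M) W) (𝔣 : Ideals K) (h𝔣 : PrimesOver K f 𝔣) :
    StarkATR ι K (K ⊔ M) 𝔣 artK W := by
  have h3 := starkReal_of_imQuad ι F k L hL _ artF _ artk hI hH W' hW'.1 hS
  have h0 := starkReal_sub ι F M L hF.le_M hML hL.stable
    (fun σ τ hσ hτ x hx => hL.abelian_F σ τ hσ hτ x ((le_sup_left : L ≤ L ⊔ k) hx)) _ artF h3
  have h1 := stark_base_change ι F K M hF _ artF artK hA hDR h0 W hW
  rw [extend_principal hF.le] at h1
  have h2 := starkCubic_mul (hart.art_K.up hart.two_le) (sup_le_sup_left hML K)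
    (le_sup_left : K ≤ K ⊔ M) hW.1 h1 𝔣 h𝔣.1
  refine starkCubic_modulus (fun 𝔟 => ?_) h2
  rw [IsCoprime.mul_right_iff]
  refine ⟨fun h => h.2, fun h => ⟨?_, h⟩⟩
  rw [Ideal.isCoprime_iff_sup_eq]
  by_contra hne
  obtain ⟨P, hP, hle⟩ := Ideal.exists_le_maximal _ hne
  have hf' : (f : 𝓞 K) ∈ P := hle ((le_sup_right : _ ≤ 𝔟 ⊔ Ideal.span {(f : 𝓞 K)})
    (Ideal.mem_span_singleton_self _))
  apply hP.ne_top
  rw [Ideal.eq_top_iff_one]
  obtain ⟨i, hi, j, hj, hij⟩ := Ideal.isCoprime_iff_exists.1 h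
  rw [← hij]
  exact P.add_mem (hle ((le_sup_left : 𝔟 ≤ 𝔟 ⊔ _) hi)) (h𝔣.2 P hP.isPrime hf' hj)

end Pool.Agent.U755.ST
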