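import Pool.Agent.K4H33.SQ.Quartic

/-! Relative quadratic extensions, and the Galois group of `K ⊔ M` over `K`. -/

set_option autoImplicit false
set_option linter.style.haveILetI false

namespace Pool.Agent.U755.ST
open NumberField Module IntermediateField Pool.Agent.K4H33.SK
open Pool.Agent.K4H33.SK.Stmt (Sub Ideals)

/-- Relative quadratic extensions. -/
lemma quadRel {F K : Sub} [FiniteDimensional ℚ F] [FiniteDimensional ℚ K] (hle : F ≤ K)
    (hK : finrank ℚ K = 2 * finrank ℚ F) {σ τ : GQ} (hσ : Fixes F σ) (hτ : Fixes F τ)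
    (hσK : ¬ Fixes K σ) (hτK : ¬ Fixes K τ) : Fixes K (σ * τ) := by
  let M : IntermediateField F Qbar := IntermediateField.extendScalars hle
  haveI i1 : FiniteDimensional ℚ ↥K := inferInstance
  haveI i4 : FiniteDimensional ℚ M := i1
  haveI i5 : IsScalarTower ℚ F M := inferInstance
  haveI i7 : FiniteDimensional F M := FiniteDimensional.right ℚ F M
  have hd2 : finrank F M = 2 := by
    have h1 := finrank_mul_finrank ℚ F M
    have h2 : finrank ℚ M = 2 * finrank ℚ F := hK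
    have h3 : 0 < finrank ℚ F := finrank_pos
    rw [h2, mul_comm] at h1
    exact Nat.eq_of_mul_eq_mul_right h3 h1
  haveI : Algebra.IsQuadraticExtension F M := ⟨hd2⟩
  haveI i6 : Normal F M := Algebra.IsQuadraticExtension.normal F M
  haveI i8 : IsGalois F M := ⟨⟩
  have hc : Nat.card (M ≃ₐ[F] M) = 2 := by rw [IsGalois.card_aut_eq_finrank, hd2]
  haveI : Fact (Nat.Prime 2) := ⟨Nat.prime_two⟩
  haveI i9 : Finite (M ≃ₐ[F] M) := Nat.finite_of_card_ne_zero (by rw [hc]; norm_num)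
  let r : F.fixingSubgroup →* (M ≃ₐ[F] M) :=
    (AlgEquiv.restrictNormalHom M).comp (IntermediateField.fixingSubgroupEquiv F).toMonoidHom
  have hr : ∀ (g : F.fixingSubgroup) (x : M), ((r g x : M) : Qbar) = (g : GQ) x := by
    intro g x
    exact AlgEquiv.restrictNormal_commutes (IntermediateField.fixingSubgroupEquiv F g) M x
  have h1 : ∀ g : F.fixingSubgroup, r g = 1 ↔ Fixes K (g : GQ) := by
    intro g
    constructor
    · intro h x hx
      have e1 := hr g ⟨x, hx⟩
      rw [h] at e1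
      exact e1.symm
    · intro h
      ext x
      exact (hr g x).trans (h _ x.2)
  set s : F.fixingSubgroup := ⟨σ, fixes_iff.1 hσ⟩ with hs
  set t : F.fixingSubgroup := ⟨τ, fixes_iff.1 hτ⟩ with ht
  have hs1 : r s ≠ 1 := fun h => hσK ((h1 s).1 h)
  have ht1 : r t ≠ 1 := fun h => hτK ((h1 t).1 h)
  have h3 : (r s) ^ 2 = 1 := by rw [← hc]; exact pow_card_eq_one'
  have h5 := mem_zpowers_of_prime_card hc (g' := r t) hs1
  have h6 : r t ∈ Submonoid.powers (r s) := mem_powers_iff_mem_zpowers.2 h5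
  obtain ⟨n, hn⟩ := h6
  have hn : (r s) ^ n = r t := hn
  have h7 : r (s * t) = 1 := by
    rw [map_mul]
    rcases Nat.even_or_odd' n with ⟨m, rfl | rfl⟩
    · rw [pow_mul, h3, one_pow] at hn
      exact absurd hn.symm ht1
    · rw [pow_add, pow_mul, h3, one_pow, one_mul, pow_one] at hn
      rw [← hn, ← pow_two, h3]
  exact (h1 (s * t)).1 h7

/-- Conjugates of automorphisms fixing `K` fix `K`. -/
lemma conjRel {F K : Sub} [FiniteDimensional ℚ F] [FiniteDimensional ℚ K] (hle : F ≤ K)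
    (hK : finrank ℚ K = 2 * finrank ℚ F) {σ g : GQ} (hσ : Fixes F σ) (hg : Fixes K g) :
    Fixes K (σ⁻¹ * g * σ) := by
  by_cases h : Fixes K σ
  · exact (h.inv.mul hg).mul h
  · have h1 : ¬ Fixes K (g * σ) := fun h2 => h (by
      have h3 := hg.inv.mul h2
      rwa [inv_mul_cancel_left] at h3)
    have h2 : ¬ Fixes K σ⁻¹ := fun h3 => h (by simpa using h3.inv)
    have h4 := quadRel hle hK hσ.inv ((hg.mono hle).mul hσ) h2 h1
    rwa [← mul_assoc] at h4

/-- `K` is stable under the automorphisms fixing `F`. -/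
lemma memRel {F K : Sub} [FiniteDimensional ℚ F] [FiniteDimensional ℚ K] (hle : F ≤ K)
    (hK : finrank ℚ K = 2 * finrank ℚ F) {σ : GQ} (hσ : Fixes F σ) {x : Qbar} (hx : x ∈ K) :
    σ x ∈ K := by
  apply mem_of_fixed
  intro g hg
  have h1 := conjRel hle hK hσ hg x hx
  rw [AlgEquiv.mul_apply, AlgEquiv.mul_apply, AlgEquiv.aut_inv, AlgEquiv.symm_apply_eq] at h1
  exact h1

/-- `cls` maps the automorphisms fixing `K` onto the abelian group `Q`, which is the Galois group of
`K ⊔ M` over `K`. -/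
structure ClassMap (K M : Sub) (Q : Type) [CommGroup Q] (cls : GQ → Q) : Prop where
  mul : ∀ σ τ, Fixes K σ → Fixes K τ → cls (σ * τ) = cls σ * cls τ
  eq : ∀ σ τ, Fixes K σ → Fixes K τ → (cls σ = cls τ ↔ ∀ x ∈ M, σ x = τ x)
  surj : ∀ q, ∃ σ, Fixes K σ ∧ cls σ = q

lemma exists_classMap (K M : Sub) [FiniteDimensional ℚ M] (hM : ∀ σ, Fixes K σ → ∀ x ∈ M, σ x ∈ M)
    (hab : ∀ σ τ, Fixes K σ → Fixes K τ → ∀ x ∈ M, σ (τ x) = τ (σ x)) :
    ∃ (Q : Type) (_ : CommGroup Q) (_ : Fintype Q) (cls : GQ → Q), ClassMap K M Q cls := by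
  classical
  set Γ : Subgroup GQ := K.fixingSubgroup with hΓ
  set N : Subgroup Γ := M.fixingSubgroup.subgroupOf Γ with hN
  have hmem : ∀ g : Γ, g ∈ N ↔ Fixes M (g : GQ) := fun g => by
    rw [hN, Subgroup.mem_subgroupOf, fixes_iff]
  have hfix : ∀ g : Γ, Fixes K (g : GQ) := fun g => fixes_iff.2 g.2
  haveI hnorm : N.Normal := by
    refine ⟨fun n hn g => ?_⟩
    rw [hmem] at hn ⊢
    intro x hx
    have h1 : ((g⁻¹ : Γ) : GQ) x ∈ M := hM _ (hfix g⁻¹) x hx
    have h2 := hn _ h1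
    push_cast
    rw [AlgEquiv.mul_apply, AlgEquiv.mul_apply]
    have h3 : ((g⁻¹ : Γ) : GQ) x = (g : GQ)⁻¹ x := rfl
    rw [h3] at h2
    rw [h2, AlgEquiv.aut_inv, AlgEquiv.apply_symm_apply]
  have heq : ∀ g g' : Γ, ((g : Γ ⧸ N) = (g' : Γ ⧸ N)) ↔ ∀ x ∈ M, (g : GQ) x = (g' : GQ) x := by
    intro g g'
    rw [eq_comm, QuotientGroup.eq, hmem, agree_iff]
    rfl
  let cg : CommGroup (Γ ⧸ N) :=
    { (inferInstance : Group (Γ ⧸ N)) with
      mul_comm := by
        intro a b
        induction a using QuotientGroup.induction_on with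
        | H a =>
          induction b using QuotientGroup.induction_on with
          | H b =>
            have h1 : ((a * b : Γ) : Γ ⧸ N) = ((b * a : Γ) : Γ ⧸ N) := by
              rw [heq]
              intro x hx
              exact hab _ _ (hfix a) (hfix b) x hx
            exact h1 }
  haveI : Finite (Γ ⧸ N) := by
    let φ : Γ ⧸ N → (M →ₐ[ℚ] Qbar) := fun q => ((q.out : Γ) : GQ).toAlgHom.comp M.val
    haveI : Finite (M →ₐ[ℚ] Qbar) := inferInstance
    refine Finite.of_injective φ fun a b hab' => ?_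
    have h1 : (a.out : Γ ⧸ N) = (b.out : Γ ⧸ N) := by
      rw [heq]
      intro x hx
      exact DFunLike.congr_fun hab' (⟨x, hx⟩ : M)
    rwa [QuotientGroup.out_eq', QuotientGroup.out_eq'] at h1
  refine ⟨Γ ⧸ N, cg, Fintype.ofFinite _,
    fun σ => if h : Fixes K σ then ((⟨σ, fixes_iff.1 h⟩ : Γ) : Γ ⧸ N) else ((1 : Γ) : Γ ⧸ N),
    ⟨fun σ τ hσ hτ => ?_, fun σ τ hσ hτ => ?_, fun q => ?_⟩⟩
  · rw [dif_pos hσ, dif_pos hτ, dif_pos (hσ.mul hτ)]
    rfl
  · rw [dif_pos hσ, dif_pos hτ, heq]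
  · induction q using QuotientGroup.induction_on with
    | H a =>
      refine ⟨(a : GQ), hfix a, ?_⟩
      rw [dif_pos (hfix a)]

end Pool.Agent.U755.ST
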