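import Pool.Agent.U755.ST.Dih

/-! The basic form of the Stark conjecture for subextensions. -/

set_option autoImplicit false
set_option linter.style.haveILetI false

namespace Pool.Agent.U755.ST
open NumberField Module IntermediateField Pool.Agent.K4H33.SK Pool.Agent.K4H33.SQ
open Pool.Agent.K4H33.SK.Stmt (Sub Ideals nrm Cop prd principal cntAll PrimesOver)

lemma cnt_sub {F M L : Sub} [NumberField F] (𝔣 : Ideals F) (art : Ideals F → GQ) {Q : Type}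
    [CommGroup Q] [Fintype Q] {cls : GQ → Q} (hcl : ClassMap M L Q cls) (hle : M ≤ L) {g : Q → GQ}
    (hg1 : ∀ x, Fixes M (g x)) (hg2 : ∀ x, cls (g x) = x) (σ : GQ) (n : ℕ) :
    cnt F M 𝔣 art σ n = ∑ x, cnt F L 𝔣 art (σ * g x) n := by
  classical
  unfold cnt
  have hfin : Set.Finite {𝔟 : Ideals F | Ideal.absNorm 𝔟 = n} :=
    Ideal.finite_setOfPred_absNorm_eq n
  haveI : Finite {𝔟 : Ideals F // Ideal.absNorm 𝔟 = n} := hfin.to_subtype
  haveI : Finite {𝔟 : Ideals F // Ideal.absNorm 𝔟 = n ∧ IsCoprime 𝔟 𝔣 ∧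
      ∀ x ∈ M, art 𝔟 x = σ x} :=
    Finite.of_injective (β := {𝔟 : Ideals F // Ideal.absNorm 𝔟 = n}) (fun 𝔟 => ⟨𝔟.1, 𝔟.2.1⟩)
      (fun a b h => Subtype.ext (Subtype.mk.inj h))
  let f : {𝔟 : Ideals F // Ideal.absNorm 𝔟 = n ∧ IsCoprime 𝔟 𝔣 ∧ ∀ x ∈ M, art 𝔟 x = σ x} → Q :=
    fun 𝔟 => cls (σ⁻¹ * art 𝔟.1)
  rw [Nat.card_congr (Equiv.sigmaFiberEquiv f).symm, Nat.card_sigma]
  refine Finset.sum_congr rfl fun x _ => Nat.card_congr ⟨fun a => ⟨a.1.1, a.1.2.1, a.1.2.2.1, ?_⟩,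
    fun b => ⟨⟨b.1, b.2.1, b.2.2.1, ?_⟩, ?_⟩, fun a => rfl, fun b => rfl⟩
  · intro y hy
    have h1 : Fixes M (σ⁻¹ * art a.1.1) := agree_iff.1 a.1.2.2.2
    have h2 : cls (σ⁻¹ * art a.1.1) = cls (g x) := by rw [hg2]; exact a.2
    have h3 := (hcl.eq _ _ h1 (hg1 x)).1 h2 y hy
    rw [AlgEquiv.mul_apply, AlgEquiv.aut_inv, AlgEquiv.symm_apply_eq] at h3
    exact h3
  · intro y hy
    rw [b.2.2.2 y (hle hy), AlgEquiv.mul_apply, hg1 x y hy]
  · have h1 : Fixes M (σ⁻¹ * art b.1) := agree_iff.1 fun y hy => by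
      rw [b.2.2.2 y (hle hy), AlgEquiv.mul_apply, hg1 x y hy]
    refine Eq.trans ((hcl.eq _ _ h1 (hg1 x)).2 ?_) (hg2 x)
    intro y hy
    rw [AlgEquiv.mul_apply, AlgEquiv.aut_inv, AlgEquiv.symm_apply_eq]
    exact b.2.2.2 y hy

/-- The basic form of the Stark conjecture for subextensions. -/
theorem starkReal_sub (ι : Qbar →+* ℂ) (F M L : Sub) [NumberField F] [NumberField L]
    (hle : F ≤ M) (hML : M ≤ L) (hstable : ∀ σ : GQ, Fixes F σ → ∀ x ∈ L, σ x ∈ L)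
    (habel : ∀ σ τ : GQ, Fixes F σ → Fixes F τ → ∀ x ∈ L, σ (τ x) = τ (σ x))
    (𝔣 : Ideals F) (art : Ideals F → GQ) (hS : StarkReal ι F L 𝔣 art) :
    StarkReal ι F M 𝔣 art := by
  classical
  obtain ⟨Z, ε, hε, hε0, hlim, hi, hi', hunit⟩ := hS
  obtain ⟨Q, iQ, iQ2, cls, hcl⟩ := exists_classMap M L
    (fun σ hσ x hx => hstable σ (hσ.mono hle) x hx)
    (fun σ τ hσ hτ x hx => habel σ τ (hσ.mono hle) (hτ.mono hle) x hx)
  choose g hg1 hg2 using hcl.surj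
  have hgF : ∀ x, Fixes F (g x) := fun x => (hg1 x).mono hle
  have he0 : ∀ x, g x ε ≠ 0 := fun x => by simpa using hε0
  have hsg : ∀ {σ : GQ}, Fixes F σ → ∀ x, Fixes F (σ * g x) := fun hσ x => hσ.mul (hgF x)
  refine ⟨fun σ s => ∑ x, Z (σ * g x) s, ∏ x, g x ε, ?_, Finset.prod_ne_zero_iff.2 fun x _ => he0 x,
    fun σ hσ => ⟨⟨?_, ?_⟩, ?_, ?_⟩, ?_, ?_, ?_⟩
  · apply mem_of_fixed
    intro τ hτ
    rw [map_prod, ← Equiv.prod_comp (Equiv.mulLeft (cls τ)) (fun x => g x ε)]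
    refine Finset.prod_congr rfl fun x _ => ?_
    have h1 : cls (τ * g x) = cls (g (cls τ * x)) := by
      rw [hcl.mul _ _ hτ (hg1 x), hg2, hg2]
    exact (hcl.eq _ _ (hτ.mul (hg1 x)) (hg1 _)).1 h1 ε hε
  · exact DifferentiableOn.fun_sum fun x _ => (hlim _ (hsg hσ x)).1.1
  · intro s hs
    have h3 : ∀ x ∈ (Finset.univ : Finset Q), LSeriesHasSum
        (fun n : ℕ => (cnt F L 𝔣 art (σ * g x) n : ℂ)) s (Z (σ * g x) s) :=
      fun x _ => (hlim _ (hsg hσ x)).1.2 s hs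
    refine (LSeriesHasSum_congr s _ (fun {n} _ => ?_)).1 (LSeriesHasSum.sum h3)
    have h4 : Stmt.cnt F M 𝔣 art σ n = ∑ x, cnt F L 𝔣 art (σ * g x) n :=
      cnt_sub 𝔣 art hcl hML hg1 hg2 σ n
    rw [h4, Finset.sum_apply]
    push_cast
    rfl
  · exact Finset.sum_eq_zero fun x _ => (hlim _ (hsg hσ x)).2.1
  · have h1 : deriv (fun s => ∑ x, Z (σ * g x) s) 0 = ∑ x, deriv (Z (σ * g x)) 0 :=
      deriv_fun_sum fun x _ => isZeta_diff (hlim _ (hsg hσ x)).1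
    change (Real.log ‖ι (σ (∏ x, g x ε))‖ : ℂ) = -2 * deriv (fun s => ∑ x, Z (σ * g x) s) 0
    rw [h1, map_prod, map_prod, norm_prod, Real.log_prod (fun x _ => by simpa using hε0),
      Finset.mul_sum]
    push_cast
    refine Finset.sum_congr rfl fun x _ => ?_
    rw [← (hlim _ (hsg hσ x)).2.2, AlgEquiv.mul_apply]
  · exact IsIntegral.prod _ fun x _ => hi.map ((g x : GQ) : Qbar →+* Qbar).toIntAlgHom
  · rw [← Finset.prod_inv_distrib]
    refine IsIntegral.prod _ fun x _ => ?_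
    have h2 := hi'.map ((g x : GQ) : Qbar →+* Qbar).toIntAlgHom
    have h3 : ((g x : GQ) : Qbar →+* Qbar).toIntAlgHom ε⁻¹ = (g x ε)⁻¹ := map_inv₀ (g x) ε
    rwa [h3] at h2
  · intro w hw
    rw [map_prod, norm_prod]
    refine Finset.prod_eq_one fun x _ => ?_
    refine hunit (w.comp ((g x : GQ) : Qbar →+* Qbar)) ?_
    obtain ⟨y, hy, hy2⟩ := hw
    refine ⟨y, hy, ?_⟩
    change w (g x y) ≠ ι y
    rw [hgF x y hy]
    exact hy2

end Pool.Agent.U755.ST
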